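import Pool.Agent.Lib.MP_52661b_pr.Sh.Poin
import Pool.Agent.Lib.MP_52661b_pr.Fibres

set_option autoImplicit false

/-!
# Block comparison with the density as a weight

PROOF of `blockS`: as `block_lower` in `BlockLower.lean` with `h x = dens A R x` (constant on fibres) and `poincare2`.
PROOF of `cmeanS`: contained in the proof of `cmean_bound` in `Fibres.lean` (steps `e1` - `e4`).
PROOF of `favgS` (`A = univ`, `dens = 1`, `cmean univ R f = favg R f`): `blockS` and
`∑ (f - favg) ^ 2 = ∑ f ^ 2 - ∑ favg ^ 2` (fibre averages, `sum_fibre_avg`).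
-/

namespace Pool.Agent.Lib.MP_52661b_pr

open Finset

private theorem bk_mem {n : ℕ} {A : Finset (Cube n)} {R : Finset (Fin n)} {x y : Cube n} :
    y ∈ fib A R x ↔ y ∈ A ∧ ∀ j, j ∉ R → y j = x j := by
  unfold fib
  rw [mem_filter]

private theorem bk_eq {n : ℕ} {A : Finset (Cube n)} {R : Finset (Fin n)} {x y : Cube n}
    (h : y ∈ fib A R x) : fib A R y = fib A R x := by
  ext z
  rw [bk_mem, bk_mem]
  rw [bk_mem] at h
  constructor
  · rintro ⟨h1, h2⟩
    exact ⟨h1, fun j hj => (h2 j hj).trans (h.2 j hj)⟩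
  · rintro ⟨h1, h2⟩
    exact ⟨h1, fun j hj => (h2 j hj).trans (h.2 j hj).symm⟩

private theorem bk_self {n : ℕ} {A : Finset (Cube n)} {R : Finset (Fin n)} {x : Cube n}
    (h : x ∈ A) : x ∈ fib A R x := bk_mem.2 ⟨h, fun _ _ => rfl⟩

private theorem bk_dens_nonneg {n : ℕ} (A : Finset (Cube n)) (R : Finset (Fin n)) (x : Cube n) :
    0 ≤ dens A R x := by
  unfold dens
  positivity

theorem blockS {n : ℕ} {A : Finset (Cube n)} (hA : IsUpperSet (A : Set (Cube n)))
    (f : Cube n → ℝ) (R : Finset (Fin n)) :
    ∑ x ∈ A, dens A R x * ((f x) ^ 2 - (cmean A R f x) ^ 2) ≤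
      9 * ∑ i ∈ R, ∑ x ∈ A, (f x - eu A i f x) ^ 2 := by
  classical
  have hinv : ∀ x y, x ∈ A → y ∈ fib A R x → dens A R y = dens A R x := by
    intro x y _ hy
    simp only [dens, bk_eq hy]
  rw [← sum_fibre_avg A R (fun x => dens A R x)
    (fun x => (f x) ^ 2 - (cmean A R f x) ^ 2) hinv]
  have e2 : ∀ x ∈ A, dens A R x * ((∑ y ∈ fib A R x, ((f y) ^ 2 - (cmean A R f y) ^ 2)) /
      ((fib A R x).card : ℝ)) ≤
      1 * ((∑ y ∈ fib A R x, 9 * ∑ i ∈ R, (f y - eu A i f y) ^ 2) /
        ((fib A R x).card : ℝ)) := by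
    intro x hx
    have hne : (fib A R x).Nonempty := ⟨x, bk_self hx⟩
    have hc : (0 : ℝ) < ((fib A R x).card : ℝ) := by exact_mod_cast hne.card_pos
    rw [one_mul, mul_div_assoc']
    apply div_le_div_of_nonneg_right _ hc.le
    have hcm : ∀ y ∈ fib A R x, cmean A R f y = cmean A R f x := by
      intro y hy
      simp only [cmean, bk_eq hy]
    rw [sum_sub_distrib]
    have e3 : ∑ y ∈ fib A R x, (cmean A R f y) ^ 2 =
        (∑ y ∈ fib A R x, f y) ^ 2 / ((fib A R x).card : ℝ) := by
      rw [sum_congr rfl (fun y hy => by rw [hcm y hy])]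
      rw [sum_const, nsmul_eq_mul, cmean]
      field_simp
    rw [e3, ← mul_sum, sum_comm]
    exact poincare2 hA f R x
  refine (sum_le_sum e2).trans ?_
  rw [sum_fibre_avg A R (fun _ => 1) (fun y => 9 * ∑ i ∈ R, (f y - eu A i f y) ^ 2)
    (fun _ _ _ _ => rfl)]
  apply le_of_eq
  simp only [one_mul]
  rw [← mul_sum, sum_comm]

theorem cmeanS {n : ℕ} (A : Finset (Cube n)) (f : Cube n → ℝ) (R : Finset (Fin n)) :
    ∑ x ∈ A, dens A R x * (cmean A R f x) ^ 2 = ∑ x : Cube n, ext A f x * favg R (ext A f) x := by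
  have e1 : ∀ x, ∑ y ∈ fib univ R x, ext A f y = ∑ y ∈ fib A R x, f y := by
    intro x
    unfold ext
    rw [← sum_filter]
    refine sum_congr ?_ fun _ _ => rfl
    ext y
    rw [mem_filter, bk_mem, bk_mem]
    constructor
    · rintro ⟨⟨_, h1⟩, h2⟩
      exact ⟨h2, h1⟩
    · rintro ⟨h1, h2⟩
      exact ⟨⟨mem_univ _, h2⟩, h1⟩
  have e2 : ∀ x ∈ A, favg R (ext A f) x = dens A R x * cmean A R f x := by
    intro x hx
    have h4 : x ∈ fib A R x := bk_self hx
    have h5 : ((fib A R x).card : ℝ) ≠ 0 := by
      have := card_pos.2 ⟨x, h4⟩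
      positivity
    unfold favg dens cmean
    rw [e1]
    field_simp
  have e3 : ∑ x : Cube n, ext A f x * favg R (ext A f) x =
      ∑ x ∈ A, (dens A R x * cmean A R f x) * f x := by
    have h1 : ∀ x : Cube n, ext A f x * favg R (ext A f) x =
        if x ∈ A then (dens A R x * cmean A R f x) * f x else 0 := by
      intro x
      by_cases hx : x ∈ A
      · rw [if_pos hx, ← e2 x hx]
        have : ext A f x = f x := by
          unfold ext
          rw [if_pos hx]
        rw [this, mul_comm]
      · rw [if_neg hx]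
        have : ext A f x = 0 := by
          unfold ext
          rw [if_neg hx]
        rw [this, zero_mul]
    rw [sum_congr rfl fun x _ => h1 x, ← sum_filter]
    refine sum_congr ?_ fun _ _ => rfl
    ext y
    simp
  have e4 : ∑ x ∈ A, (dens A R x * cmean A R f x) * f x =
      ∑ x ∈ A, (dens A R x * cmean A R f x) * cmean A R f x := by
    rw [← sum_fibre_avg A R (fun x => dens A R x * cmean A R f x) f]
    · rfl
    · intro x y _ hy
      have h1 := bk_eq hy
      change dens A R y * cmean A R f y = dens A R x * cmean A R f x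
      unfold dens cmean
      rw [h1]
  rw [e3, e4]
  exact sum_congr rfl fun x _ => by ring

/-- the number of points of a subcube -/
private theorem bk_card {n : ℕ} (R : Finset (Fin n)) (x : Cube n) :
    (fib (univ : Finset (Cube n)) R x).card = 2 ^ R.card := by
  classical
  have h : (fib (univ : Finset (Cube n)) R x).card = (R.powerset).card := by
    refine card_bij' (fun y _ => R.filter fun j => y j = true)
      (fun S _ => fun j => if j ∈ R then decide (j ∈ S) else x j) ?_ ?_ ?_ ?_
    · intro y _
      exact mem_powerset.2 (filter_subset _ _)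
    · intro S _
      rw [bk_mem]
      exact ⟨mem_univ _, fun j hj => by simp [hj]⟩
    · intro y hy
      rw [bk_mem] at hy
      funext j
      by_cases hj : j ∈ R
      · simp [hj]
      · simp [hj, hy.2 j hj]
    · intro S hS
      rw [mem_powerset] at hS
      ext j
      simp only [mem_filter]
      constructor
      · rintro ⟨h1, h2⟩
        simpa [h1] using h2
      · intro h
        exact ⟨hS h, by simp [hS h, h]⟩
  rw [h, card_powerset]

theorem favgS {n : ℕ} (f : Cube n → ℝ) (R : Finset (Fin n)) :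
    ∑ x : Cube n, (f x - favg R f x) ^ 2 ≤
      9 * ∑ i ∈ R, ∑ x : Cube n, (f x - eu univ i f x) ^ 2 := by
  classical
  have hup : IsUpperSet ((univ : Finset (Cube n)) : Set (Cube n)) := by
    rw [coe_univ]
    exact isUpperSet_univ
  have h1 := blockS hup f R
  have hd : ∀ x : Cube n, dens univ R x = 1 := by
    intro x
    unfold dens
    rw [bk_card]
    push_cast
    exact div_self (by positivity)
  have hc : ∀ x : Cube n, cmean univ R f x = favg R f x := by
    intro x
    unfold cmean favg
    rw [bk_card]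
    push_cast
    rfl
  have h2 : ∑ x : Cube n, favg R f x * favg R f x = ∑ x : Cube n, favg R f x * f x := by
    have := sum_fibre_avg (univ : Finset (Cube n)) R (fun x => favg R f x) f (by
      intro x y _ hy
      change favg R f y = favg R f x
      unfold favg
      rw [bk_eq hy])
    rw [← this]
    refine sum_congr rfl fun x _ => ?_
    have h3 : (∑ y ∈ fib univ R x, f y) / ((fib univ R x).card : ℝ) = favg R f x := hc x
    rw [h3]
  have h4 : ∑ x : Cube n, (f x - favg R f x) ^ 2 =
      ∑ x : Cube n, dens univ R x * ((f x) ^ 2 - (cmean univ R f x) ^ 2) := by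
    have h5 : ∀ x : Cube n, (f x - favg R f x) ^ 2 =
        dens univ R x * ((f x) ^ 2 - (cmean univ R f x) ^ 2) +
          2 * (favg R f x * favg R f x - favg R f x * f x) := by
      intro x
      rw [hd, hc]
      ring
    rw [sum_congr rfl fun x _ => h5 x, sum_add_distrib, ← mul_sum, sum_sub_distrib, h2,
      sub_self, mul_zero, add_zero]
  rw [h4]
  exact h1

end Pool.Agent.Lib.MP_52661b_pr
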