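import Pool.Agent.Lib.MP_52661b_pr.Defs

set_option autoImplicit false

/-!
# Lower bound: two subcubes (copy of the hand-in MonotoneBottleneck)
-/

namespace Pool.Agent.Lib.MP_52661b_pr.Bot

open Finset

noncomputable section

lemma flip_flip {n : ℕ} (x : Fin n → Bool) (i : Fin n) : flip (flip x i) i = x := by
  funext j
  unfold flip
  by_cases h : j = i
  · subst h; simp
  · simp [h]

lemma propose_propose {n : ℕ} (A : Finset (Fin n → Bool)) (x : A) (i : Fin n) :
    propose A (propose A x i) i = x := by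
  by_cases h : flip x.1 i ∈ A
  · have h1 : propose A x i = ⟨flip x.1 i, h⟩ := by simp [propose, h]
    rw [h1]
    have h2 : flip (flip x.1 i) i ∈ A := by rw [flip_flip]; exact x.2
    unfold propose
    rw [dif_pos h2]
    apply Subtype.ext
    exact flip_flip x.1 i
  · have h1 : propose A x i = x := by simp [propose, h]
    rw [h1, h1]

lemma walk_nonneg {n : ℕ} (A : Finset (Fin n → Bool)) (x y : A) : 0 ≤ censoredWalk A x y := by
  unfold censoredWalk
  apply add_nonneg
  · apply mul_nonneg (by norm_num); split_ifs <;> norm_num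
  · apply mul_nonneg (by norm_num)
    apply Finset.sum_nonneg
    intro i _
    apply mul_nonneg (by positivity)
    split_ifs <;> norm_num

lemma walk_row {n : ℕ} (hn : 0 < n) (A : Finset (Fin n → Bool)) (x : A) :
    ∑ y, censoredWalk A x y = 1 := by
  have hn' : (n : ℝ) ≠ 0 := by exact_mod_cast hn.ne'
  unfold censoredWalk
  rw [Finset.sum_add_distrib, ← Finset.mul_sum, ← Finset.mul_sum, Finset.sum_comm]
  simp only [← Finset.mul_sum, Finset.sum_ite_eq', Finset.mem_univ, if_true, mul_one]
  rw [Finset.sum_const, Finset.card_univ, Fintype.card_fin, nsmul_eq_mul]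
  field_simp
  norm_num

lemma walk_col {n : ℕ} (hn : 0 < n) (A : Finset (Fin n → Bool)) (y : A) :
    ∑ x, censoredWalk A x y = 1 := by
  have hn' : (n : ℝ) ≠ 0 := by exact_mod_cast hn.ne'
  unfold censoredWalk
  rw [Finset.sum_add_distrib, ← Finset.mul_sum, ← Finset.mul_sum, Finset.sum_comm]
  have h : ∀ i : Fin n, ∑ x : A, (1 / (n : ℝ)) * (if y = propose A x i then (1 : ℝ) else 0) = 1 / n := by
    intro i
    rw [← Finset.mul_sum]
    have h2 : ∀ x : A, (if y = propose A x i then (1 : ℝ) else 0) = if propose A y i = x then 1 else 0 := by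
      intro x
      by_cases h3 : y = propose A x i
      · rw [if_pos h3, if_pos]
        rw [h3, propose_propose]
      · rw [if_neg h3, if_neg]
        intro h4
        apply h3
        rw [← h4, propose_propose]
    simp only [h2, Finset.sum_ite_eq, Finset.mem_univ, if_true, mul_one]
  simp only [h, Finset.sum_ite_eq, Finset.mem_univ, if_true]
  rw [Finset.sum_const, Finset.card_univ, Fintype.card_fin, nsmul_eq_mul]
  field_simp
  norm_num

lemma pow_nonneg' {n : ℕ} (A : Finset (Fin n → Bool)) (t : ℕ) (x y : A) :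
    0 ≤ ((censoredWalk A) ^ t) x y := by
  induction t generalizing x y with
  | zero => rw [pow_zero, Matrix.one_apply]; split_ifs <;> norm_num
  | succ t ih =>
    rw [pow_succ, Matrix.mul_apply]
    exact Finset.sum_nonneg fun z _ => mul_nonneg (ih x z) (walk_nonneg A z y)

lemma pow_row {n : ℕ} (hn : 0 < n) (A : Finset (Fin n → Bool)) (t : ℕ) (x : A) :
    ∑ y, ((censoredWalk A) ^ t) x y = 1 := by
  induction t with
  | zero => simp [Matrix.one_apply]
  | succ t ih =>
    simp_rw [pow_succ, Matrix.mul_apply]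
    rw [Finset.sum_comm]
    simp_rw [← Finset.mul_sum, walk_row hn, mul_one]
    exact ih

lemma pow_col {n : ℕ} (hn : 0 < n) (A : Finset (Fin n → Bool)) (t : ℕ) (y : A) :
    ∑ x, ((censoredWalk A) ^ t) x y = 1 := by
  induction t generalizing y with
  | zero => simp [Matrix.one_apply]
  | succ t ih =>
    simp_rw [pow_succ, Matrix.mul_apply]
    rw [Finset.sum_comm]
    simp_rw [← Finset.sum_mul, ih, one_mul]
    exact walk_col hn A y

/-- the bottleneck argument: `W` and its complement `V` in `A` -/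
lemma escape_bound {n : ℕ} (hn : 0 < n) (A : Finset (Fin n → Bool)) (W : Finset A) (F : ℝ)
    (hF : ∑ z ∈ W, ∑ y ∈ Wᶜ, censoredWalk A z y ≤ F) (t : ℕ) :
    ∑ w ∈ W, ∑ y ∈ Wᶜ, ((censoredWalk A) ^ t) w y ≤ t * F := by
  induction t with
  | zero =>
    simp only [pow_zero, Nat.cast_zero, zero_mul]
    apply le_of_eq
    apply Finset.sum_eq_zero
    intro w hw
    apply Finset.sum_eq_zero
    intro y hy
    rw [Matrix.one_apply, if_neg]
    rintro rfl
    exact (Finset.mem_compl.mp hy) hw
  | succ t ih =>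
    have h1 : ∀ w : A, ∑ y ∈ Wᶜ, ((censoredWalk A) ^ (t + 1)) w y =
        ∑ z, ((censoredWalk A) ^ t) w z * ∑ y ∈ Wᶜ, censoredWalk A z y := by
      intro w
      simp_rw [pow_succ, Matrix.mul_apply]
      rw [Finset.sum_comm]
      simp_rw [Finset.mul_sum]
    simp_rw [h1]
    have h2 : ∀ w : A, ∑ z, ((censoredWalk A) ^ t) w z * ∑ y ∈ Wᶜ, censoredWalk A z y ≤
        ∑ z ∈ W, ((censoredWalk A) ^ t) w z * ∑ y ∈ Wᶜ, censoredWalk A z y +
          ∑ z ∈ Wᶜ, ((censoredWalk A) ^ t) w z := by
      intro w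
      rw [← Finset.sum_add_sum_compl W]
      apply add_le_add (le_refl _)
      apply Finset.sum_le_sum
      intro z _
      have h3 : ∑ y ∈ Wᶜ, censoredWalk A z y ≤ 1 := by
        rw [← walk_row hn A z]
        exact Finset.sum_le_sum_of_subset_of_nonneg (Finset.subset_univ _)
          (fun y _ _ => walk_nonneg A z y)
      have h4 := pow_nonneg' A t w z
      nlinarith
    calc ∑ w ∈ W, ∑ z, ((censoredWalk A) ^ t) w z * ∑ y ∈ Wᶜ, censoredWalk A z y
        ≤ ∑ w ∈ W, (∑ z ∈ W, ((censoredWalk A) ^ t) w z * ∑ y ∈ Wᶜ, censoredWalk A z y +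
          ∑ z ∈ Wᶜ, ((censoredWalk A) ^ t) w z) := Finset.sum_le_sum fun w _ => h2 w
      _ = ∑ z ∈ W, (∑ w ∈ W, ((censoredWalk A) ^ t) w z) * ∑ y ∈ Wᶜ, censoredWalk A z y +
          ∑ w ∈ W, ∑ z ∈ Wᶜ, ((censoredWalk A) ^ t) w z := by
          rw [Finset.sum_add_distrib, Finset.sum_comm]
          simp_rw [Finset.sum_mul]
      _ ≤ ∑ z ∈ W, 1 * ∑ y ∈ Wᶜ, censoredWalk A z y + t * F := by
          apply add_le_add _ ih
          apply Finset.sum_le_sum
          intro z _
          apply mul_le_mul_of_nonneg_right _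
            (Finset.sum_nonneg fun y _ => walk_nonneg A z y)
          rw [← pow_col hn A t z]
          exact Finset.sum_le_sum_of_subset_of_nonneg (Finset.subset_univ _)
            (fun w _ _ => pow_nonneg' A t w z)
      _ ≤ F + t * F := by
          simp only [one_mul]
          linarith
      _ = ((t + 1 : ℕ) : ℝ) * F := by push_cast; ring

lemma tv_lower {n : ℕ} (hn : 0 < n) (A : Finset (Fin n → Bool)) (W : Finset A) (t : ℕ) (x : A) :
    (Wᶜ.card : ℝ) / A.card - ∑ y ∈ Wᶜ, ((censoredWalk A) ^ t) x y ≤ tvDist A t x := by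
  have hA : (0 : ℝ) < A.card := by
    have : 0 < A.card := Finset.card_pos.mpr ⟨x.1, x.2⟩
    exact_mod_cast this
  have hsum : ∑ y, (((censoredWalk A) ^ t) x y - 1 / (A.card : ℝ)) = 0 := by
    rw [Finset.sum_sub_distrib, pow_row hn, Finset.sum_const, Finset.card_univ, Fintype.card_coe,
      nsmul_eq_mul]
    field_simp
    norm_num
  have hsplit := Finset.sum_add_sum_compl W (fun y => ((censoredWalk A) ^ t) x y - 1 / (A.card : ℝ))
  rw [hsum] at hsplit
  have habs := Finset.sum_add_sum_compl W (fun y => |((censoredWalk A) ^ t) x y - 1 / (A.card : ℝ)|)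
  have h1 : ∑ y ∈ W, (((censoredWalk A) ^ t) x y - 1 / (A.card : ℝ)) ≤
      ∑ y ∈ W, |((censoredWalk A) ^ t) x y - 1 / (A.card : ℝ)| :=
    Finset.sum_le_sum fun y _ => le_abs_self _
  have h2 : -∑ y ∈ Wᶜ, (((censoredWalk A) ^ t) x y - 1 / (A.card : ℝ)) ≤
      ∑ y ∈ Wᶜ, |((censoredWalk A) ^ t) x y - 1 / (A.card : ℝ)| := by
    rw [← Finset.sum_neg_distrib]
    exact Finset.sum_le_sum fun y _ => neg_le_abs _
  have h3 : ∑ y ∈ Wᶜ, (((censoredWalk A) ^ t) x y - 1 / (A.card : ℝ)) =
      ∑ y ∈ Wᶜ, ((censoredWalk A) ^ t) x y - (Wᶜ.card : ℝ) / A.card := by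
    rw [Finset.sum_sub_distrib, Finset.sum_const, nsmul_eq_mul]
    ring
  unfold tvDist
  linarith

/-- a subcube -/
def cube (n : ℕ) (S : Finset (Fin n)) : Finset (Fin n → Bool) :=
  Finset.univ.filter (fun x => ∀ i ∈ S, x i = true)

lemma mem_cube {n : ℕ} {S : Finset (Fin n)} {x : Fin n → Bool} :
    x ∈ cube n S ↔ ∀ i ∈ S, x i = true := by simp [cube]

lemma card_cube (n : ℕ) (S : Finset (Fin n)) : (cube n S).card = 2 ^ (n - S.card) := by
  have h : cube n S = Fintype.piFinset (fun i => if i ∈ S then {true} else Finset.univ) := by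
    ext x
    rw [mem_cube, Fintype.mem_piFinset]
    constructor
    · intro h i
      by_cases hi : i ∈ S
      · simp [hi, h i hi]
      · simp [hi]
    · intro h i hi
      have := h i
      simpa [hi] using this
  rw [h, Fintype.card_piFinset]
  have h2 : ∀ i : Fin n, (if i ∈ S then ({true} : Finset Bool) else Finset.univ).card =
      if i ∈ S then 1 else 2 := by
    intro i
    split_ifs <;> simp
  simp_rw [h2]
  rw [Finset.prod_ite]
  simp only [Finset.prod_const_one, Finset.prod_const, one_mul]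
  congr 1
  have h3 : Finset.univ.filter (fun i => i ∉ S) = Sᶜ := by ext i; simp
  rw [h3, Finset.card_compl, Fintype.card_fin]

lemma cube_upper (n : ℕ) (S : Finset (Fin n)) : IsUpperSet (cube n S : Set (Fin n → Bool)) := by
  intro x y hxy hx
  simp only [Finset.mem_coe, mem_cube] at hx ⊢
  intro i hi
  have h1 := hxy i
  rw [hx i hi] at h1
  exact top_le_iff.mp h1

lemma cube_inter (n : ℕ) (S T : Finset (Fin n)) : cube n S ∩ cube n T = cube n (S ∪ T) := by
  ext x
  simp only [Finset.mem_inter, mem_cube, Finset.mem_union]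
  constructor
  · rintro ⟨h1, h2⟩ i (hi | hi)
    · exact h1 i hi
    · exact h2 i hi
  · intro h
    exact ⟨fun i hi => h i (Or.inl hi), fun i hi => h i (Or.inr hi)⟩

/-- main construction -/
lemma two_cubes {n k : ℕ} (hk : 1 ≤ k) (hkn : 2 * k ≤ n) :
    ∃ A : Finset (Fin n → Bool), A.Nonempty ∧ IsUpperSet (A : Set (Fin n → Bool)) ∧
      1 / 2 ^ k ≤ cubeMeasure A ∧
      ∀ t : ℕ, (t : ℝ) * (2 * k) < n * (2 ^ k - 1) → ¬ IsMixed A t := by
  have hn : 0 < n := by omega
  have hn' : (0 : ℝ) < n := by exact_mod_cast hn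
  obtain ⟨S, -, hS⟩ := Finset.exists_subset_card_eq (s := (Finset.univ : Finset (Fin n)))
    (n := k) (by rw [Finset.card_univ, Fintype.card_fin]; omega)
  obtain ⟨T, hTS, hT⟩ := Finset.exists_subset_card_eq (s := Sᶜ) (n := k)
    (by rw [Finset.card_compl, Fintype.card_fin]; omega)
  have hdisj : Disjoint S T := by
    rw [Finset.disjoint_left]
    intro i hi hi'
    exact (Finset.mem_compl.mp (hTS hi')) hi
  have hST : (S ∪ T).card = 2 * k := by rw [Finset.card_union_of_disjoint hdisj, hS, hT]; ring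
  set A : Finset (Fin n → Bool) := cube n S ∪ cube n T with hA
  have hcU : (cube n S).card = 2 ^ (n - k) := by rw [card_cube, hS]
  have hcV : (cube n T).card = 2 ^ (n - k) := by rw [card_cube, hT]
  have hcI : (cube n (S ∪ T)).card = 2 ^ (n - 2 * k) := by rw [card_cube, hST]
  have hp1 : (2 : ℝ) ^ (n - k) = 2 ^ (n - 2 * k) * 2 ^ k := by rw [← pow_add]; congr 1; omega
  refine ⟨A, ?_, ?_, ?_, ?_⟩
  · refine ⟨fun _ => true, ?_⟩
    rw [hA, Finset.mem_union, mem_cube]
    left
    intro i _
    rfl
  · rw [hA, Finset.coe_union]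
    exact (cube_upper n S).union (cube_upper n T)
  · unfold cubeMeasure
    have h1 : 2 ^ (n - k) ≤ A.card := by
      rw [← hcU]
      exact Finset.card_le_card Finset.subset_union_left
    have h1' : (2 : ℝ) ^ (n - k) ≤ A.card := by exact_mod_cast h1
    rw [div_le_div_iff₀ (by positivity) (by positivity), one_mul]
    calc (2 : ℝ) ^ n = 2 ^ (n - k) * 2 ^ k := by rw [← pow_add]; congr 1; omega
      _ ≤ _ := by gcongr
  · intro t ht hmix
    -- the part of the first cube outside the second
    set W : Finset A := Finset.univ.filter (fun x : A => x.1 ∉ cube n T) with hW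
    have hWcard : W.card + 2 ^ (n - 2 * k) = 2 ^ (n - k) := by
      have h1 : W.card = (cube n S \ cube n T).card := by
        apply Finset.card_bij (fun (x : A) _ => x.1)
        · intro x hx
          have hx' := (Finset.mem_filter.mp hx).2
          rw [Finset.mem_sdiff]
          refine ⟨?_, hx'⟩
          rcases Finset.mem_union.mp x.2 with h | h
          · exact h
          · exact absurd h hx'
        · intro x _ y _ hxy
          exact Subtype.ext hxy
        · intro y hy
          have hy' := Finset.mem_sdiff.mp hy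
          exact ⟨⟨y, Finset.mem_union_left _ hy'.1⟩, Finset.mem_filter.mpr ⟨Finset.mem_univ _, hy'.2⟩, rfl⟩
      have h2 := Finset.card_sdiff_add_card_inter (cube n S) (cube n T)
      rw [cube_inter, hcI, hcU] at h2
      omega
    have hVcard : Wᶜ.card = 2 ^ (n - k) := by
      have h1 : Wᶜ.card = (cube n T).card := by
        apply Finset.card_bij (fun (x : A) _ => x.1)
        · intro x hx
          rw [Finset.mem_compl, hW, Finset.mem_filter] at hx
          push Not at hx
          exact hx (Finset.mem_univ _)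
        · intro x _ y _ hxy
          exact Subtype.ext hxy
        · intro y hy
          refine ⟨⟨y, Finset.mem_union_right _ hy⟩, ?_, rfl⟩
          rw [Finset.mem_compl, hW, Finset.mem_filter]
          push Not
          intro _
          exact hy
      rw [h1, hcV]
    have hAcard : A.card = W.card + Wᶜ.card := by
      rw [Finset.card_add_card_compl, Fintype.card_coe]
    -- flow across the bottleneck
    have hflow : ∑ z ∈ W, ∑ y ∈ Wᶜ, censoredWalk A z y ≤ (2 ^ (n - 2 * k) * k) / (2 * n) := by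
      have h1 : ∀ z ∈ W, ∀ y ∈ Wᶜ, censoredWalk A z y =
          (1 / (2 * n)) * ∑ i : Fin n, (if y = propose A z i then (1 : ℝ) else 0) := by
        intro z hz y hy
        unfold censoredWalk
        have : y ≠ z := by
          rintro rfl
          exact (Finset.mem_compl.mp hy) hz
        rw [if_neg this, ← Finset.mul_sum]
        field_simp
        ring
      rw [Finset.sum_congr rfl fun z hz => Finset.sum_congr rfl fun y hy => h1 z hz y hy]
      simp_rw [← Finset.mul_sum]
      have h2 : ∑ z ∈ W, ∑ y ∈ Wᶜ, ∑ i : Fin n, (if y = propose A z i then (1 : ℝ) else 0) ≤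
          2 ^ (n - 2 * k) * k := by
        have h3 : ∀ z ∈ W, ∑ y ∈ Wᶜ, ∑ i : Fin n, (if y = propose A z i then (1 : ℝ) else 0) =
            ∑ i : Fin n, (if propose A z i ∈ Wᶜ then (1 : ℝ) else 0) := by
          intro z _
          rw [Finset.sum_comm]
          apply Finset.sum_congr rfl
          intro i _
          rw [Finset.sum_ite_eq']
        rw [Finset.sum_congr rfl h3, ← Finset.sum_product', ← Finset.sum_filter, Finset.sum_const,
          nsmul_eq_mul, mul_one]
        have h4 : (((W ×ˢ (Finset.univ : Finset (Fin n))).filter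
            (fun p => propose A p.1 p.2 ∈ Wᶜ)).card) ≤ (cube n (S ∪ T) ×ˢ T).card := by
          apply Finset.card_le_card_of_injOn (fun p => (flip p.1.1 p.2, p.2))
          · rintro ⟨z, i⟩ hp
            have hp' := Finset.mem_filter.mp hp
            have hz : z ∈ W := (Finset.mem_product.mp hp'.1).1
            have hzT : z.1 ∉ cube n T := (Finset.mem_filter.mp hz).2
            have hzS : z.1 ∈ cube n S := by
              rcases Finset.mem_union.mp z.2 with h | h
              · exact h
              · exact absurd h hzT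
            have hpr : propose A z i ∈ Wᶜ := hp'.2
            rw [Finset.mem_compl, hW, Finset.mem_filter] at hpr
            push Not at hpr
            have hpr2 := hpr (Finset.mem_univ _)
            have hfl : flip z.1 i ∈ A := by
              by_contra hno
              have : propose A z i = z := by simp [propose, hno]
              rw [this] at hpr2
              exact hzT hpr2
            have hpe : (propose A z i).1 = flip z.1 i := by simp [propose, hfl]
            rw [hpe] at hpr2
            have hiT : i ∈ T := by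
              by_contra hiT
              apply hzT
              rw [mem_cube] at hpr2 ⊢
              intro j hj
              have hji : j ≠ i := fun h => hiT (h ▸ hj)
              have := hpr2 j hj
              simpa [flip, hji] using this
            have hiS : i ∉ S := fun h => (Finset.disjoint_left.mp hdisj h) hiT
            simp only [Finset.coe_product, Set.mem_prod, Finset.mem_coe]
            refine ⟨?_, hiT⟩
            rw [← cube_inter, Finset.mem_inter]
            refine ⟨?_, hpr2⟩
            rw [mem_cube] at hzS ⊢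
            intro j hj
            have hji : j ≠ i := fun h => hiS (h ▸ hj)
            have := hzS j hj
            simpa [flip, hji] using this
          · rintro ⟨z, i⟩ _ ⟨z', i'⟩ _ heq
            simp only [Prod.mk.injEq] at heq
            obtain ⟨h5, rfl⟩ := heq
            have : z.1 = z'.1 := by rw [← flip_flip z.1 i, h5, flip_flip]
            rw [Subtype.ext this]
        rw [Finset.card_product, hcI, hT] at h4
        exact_mod_cast h4
      calc (1 / (2 * (n : ℝ))) * ∑ z ∈ W, ∑ y ∈ Wᶜ, ∑ i : Fin n, (if y = propose A z i then (1 : ℝ) else 0)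
          ≤ (1 / (2 * (n : ℝ))) * (2 ^ (n - 2 * k) * k) := by gcongr
        _ = _ := by ring
    have hesc := escape_bound hn A W _ hflow t
    -- W is nonempty
    have hk2 : (2 : ℝ) ≤ 2 ^ k := by
      calc (2 : ℝ) = 2 ^ 1 := by norm_num
        _ ≤ 2 ^ k := pow_le_pow_right₀ (by norm_num) hk
    set J : ℝ := 2 ^ (n - 2 * k) with hJ
    have hJ0 : 0 < J := by positivity
    have hWr : (W.card : ℝ) = J * (2 ^ k - 1) := by
      have : (W.card : ℝ) + 2 ^ (n - 2 * k) = 2 ^ (n - k) := by exact_mod_cast hWcard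
      rw [hp1] at this
      linarith
    have hWpos : (0 : ℝ) < W.card := by rw [hWr]; nlinarith
    have hVr : ((Wᶜ).card : ℝ) = J * 2 ^ k := by
      rw [hVcard]; push_cast; rw [hp1]
    have hAr : (A.card : ℝ) = J * (2 ^ k - 1) + J * 2 ^ k := by
      rw [hAcard]; push_cast; rw [hWr, hVr]
    -- average over W
    have havg : ∑ w ∈ W, (1 / 4 : ℝ) ≤ ∑ w ∈ W, ∑ y ∈ Wᶜ, ((censoredWalk A) ^ t) w y := by
      apply Finset.sum_le_sum
      intro w _
      have h1 := tv_lower hn A W t w
      have h2 := hmix w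
      have h3 : (1 / 2 : ℝ) ≤ (Wᶜ.card : ℝ) / A.card := by
        rw [hVr, hAr, div_le_div_iff₀ (by norm_num) (by nlinarith)]
        nlinarith
      linarith
    rw [Finset.sum_const, nsmul_eq_mul] at havg
    have hfin : (W.card : ℝ) * (1 / 4) ≤ t * ((J * k) / (2 * n)) := havg.trans hesc
    rw [hWr] at hfin
    have h5 : J * ((n : ℝ) * (2 ^ k - 1)) ≤ J * (t * (2 * k)) := by
      have h6 : t * ((J * k) / (2 * n)) = (J * (t * (2 * k))) / (4 * n) := by
        field_simp
        ring
      rw [h6, le_div_iff₀ (by positivity)] at hfin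
      nlinarith
    have h7 := le_of_mul_le_mul_left h5 hJ0
    linarith


/-- an absolute constant fails as soon as the measure may be as small as `1 / (K log n log log n)` -/
lemma log_scale (C : ℝ) : ∃ K : ℝ, 0 < K ∧ ∃ N : ℕ, ∀ n : ℕ, N ≤ n →
    ∃ A : Finset (Fin n → Bool), A.Nonempty ∧ IsUpperSet (A : Set (Fin n → Bool)) ∧
      1 / (K * Real.log n * Real.log (Real.log n)) ≤ cubeMeasure A ∧
      ∀ t : ℕ, IsMixed A t → C * n * Real.log n < t := by
  set D : ℝ := max C 1 with hD
  have hD1 : 1 ≤ D := le_max_right _ _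
  have hCD : C ≤ D := le_max_left _ _
  refine ⟨16 * D, by linarith, ?_⟩
  have hlog : Filter.Tendsto (fun n : ℕ => Real.log (n : ℝ)) Filter.atTop Filter.atTop :=
    Real.tendsto_log_atTop.comp tendsto_natCast_atTop_atTop
  have hloglog : Filter.Tendsto (fun n : ℕ => Real.log (Real.log (n : ℝ))) Filter.atTop Filter.atTop :=
    Real.tendsto_log_atTop.comp hlog
  have e1 : ∀ᶠ n : ℕ in Filter.atTop, 1 ≤ Real.log (n : ℝ) := hlog.eventually_ge_atTop 1
  have e2 : ∀ᶠ n : ℕ in Filter.atTop, 1 ≤ Real.log (Real.log (n : ℝ)) :=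
    hloglog.eventually_ge_atTop 1
  have e3 : ∀ᶠ n : ℕ in Filter.atTop, 4 * Real.log (16 * D) ≤ Real.log (Real.log (n : ℝ)) :=
    hloglog.eventually_ge_atTop _
  have e4 : ∀ᶠ x : ℝ in Filter.atTop, Real.log x ≤ (1 / 4) * x := by
    have := Real.isLittleO_log_id_atTop.def (c := 1 / 4) (by norm_num)
    filter_upwards [this, Filter.eventually_ge_atTop (1 : ℝ)] with x hx hx1
    rw [Real.norm_eq_abs, Real.norm_eq_abs, abs_of_nonneg (Real.log_nonneg hx1), id,
      abs_of_nonneg (by linarith)] at hx
    exact hx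
  have e5 := hloglog.eventually e4
  have e6 : ∀ᶠ n : ℕ in Filter.atTop, Real.log (Real.log (n : ℝ)) ≤ (1 / 4) * Real.log (n : ℝ) :=
    hlog.eventually e4
  have e7 : ∀ᶠ n : ℕ in Filter.atTop, Real.log (n : ℝ) ≤ (1 / 4) * (n : ℝ) :=
    tendsto_natCast_atTop_atTop.eventually e4
  obtain ⟨N, hN⟩ := Filter.eventually_atTop.mp
    (e1.and (e2.and (e3.and (e5.and (e6.and e7)))))
  refine ⟨max N 1, fun n hn => ?_⟩
  obtain ⟨h1, h2, h3, h5, h6, h7⟩ := hN n (le_trans (le_max_left _ _) hn)
  have hn1 : 1 ≤ n := le_trans (le_max_right _ _) hn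
  have hn0 : (0 : ℝ) < n := by exact_mod_cast hn1
  set L : ℝ := Real.log (n : ℝ) with hL
  set l : ℝ := Real.log L with hl
  have hLl : 1 ≤ L * l := by nlinarith
  have hDLl : 1 ≤ D * (L * l) := by nlinarith
  obtain ⟨m, hm1, hm2⟩ := exists_nat_pow_near (x := 8 * (D * (L * l))) (y := (2 : ℝ))
    (by linarith) (by norm_num)
  set k := m + 1 with hk
  have hk2 : (2 : ℝ) ^ k ≤ 16 * (D * (L * l)) := by
    rw [hk, pow_succ]; linarith
  have hklog : (k : ℝ) * Real.log 2 ≤ Real.log (16 * D) + (l + Real.log l) := by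
    have hL0 : 0 < L := by linarith
    have hl0 : 0 < l := by linarith
    have h9 := Real.log_le_log (by positivity) hk2
    rw [Real.log_pow] at h9
    have h10 : 16 * (D * (L * l)) = (16 * D) * (L * l) := by ring
    have h11 : Real.log ((16 * D) * (L * l)) = Real.log (16 * D) + (l + Real.log l) := by
      have h12 : Real.log (L * l) = l + Real.log l := Real.log_mul hL0.ne' hl0.ne'
      rw [← h12]
      exact Real.log_mul (by positivity) (by positivity)
    rw [h10, h11] at h9
    exact h9
  have hk3 : (k : ℝ) ≤ 3 * l := by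
    have h9 : (0.69 : ℝ) < Real.log 2 := by
      have := Real.log_two_gt_d9
      linarith
    have h10 : (k : ℝ) * Real.log 2 ≤ (3 / 2) * l := by linarith
    have hk0 : (0 : ℝ) ≤ k := by positivity
    have h11 : (k : ℝ) * 0.69 ≤ (k : ℝ) * Real.log 2 := by gcongr
    nlinarith
  have hkn : 2 * k ≤ n := by
    have : (2 * k : ℝ) ≤ n := by linarith
    exact_mod_cast this
  obtain ⟨A, hA1, hA2, hA3, hA4⟩ := two_cubes (n := n) (k := k) (by omega) hkn
  refine ⟨A, hA1, hA2, ?_, ?_⟩
  · refine le_trans ?_ hA3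
    apply one_div_le_one_div_of_le (by positivity)
    calc (2 : ℝ) ^ k ≤ 16 * (D * (L * l)) := hk2
      _ = 16 * D * L * l := by ring
  · intro t ht
    by_contra hcon
    push Not at hcon
    apply hA4 t _ ht
    have hk0 : (1 : ℝ) ≤ k := by exact_mod_cast (by omega : 1 ≤ k)
    have hnL : 0 ≤ (n : ℝ) * L := by nlinarith
    have h12 : (t : ℝ) ≤ D * ((n : ℝ) * L) := by
      calc (t : ℝ) ≤ C * n * L := hcon
        _ = C * ((n : ℝ) * L) := by ring
        _ ≤ D * ((n : ℝ) * L) := by gcongr
    calc (t : ℝ) * (2 * k) ≤ (D * ((n : ℝ) * L)) * (2 * (3 * l)) := by gcongr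
      _ = n * (6 * (D * (L * l))) := by ring
      _ < n * (2 ^ k - 1) := by
        apply mul_lt_mul_of_pos_left _ hn0
        linarith

/-- Mixing of the censored walk on a monotone set cannot be bounded by an absolute constant
times `n log n`. -/
theorem lower :
    (∀ n k : ℕ, 1 ≤ k → 2 * k ≤ n → ∃ A : Finset (Fin n → Bool), A.Nonempty ∧
      IsUpperSet (A : Set (Fin n → Bool)) ∧ 1 / 2 ^ k ≤ cubeMeasure A ∧
      ∀ t : ℕ, IsMixed A t → (n : ℝ) * (2 ^ k - 1) / (2 * k) ≤ t) ∧
    (∀ C : ℝ, ∃ K : ℝ, 0 < K ∧ ∃ N : ℕ, ∀ n : ℕ, N ≤ n →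
      ∃ A : Finset (Fin n → Bool), A.Nonempty ∧ IsUpperSet (A : Set (Fin n → Bool)) ∧
        1 / (K * Real.log n * Real.log (Real.log n)) ≤ cubeMeasure A ∧
        ∀ t : ℕ, IsMixed A t → C * n * Real.log n < t) ∧
    ¬ (∃ C : ℝ, ∀ n : ℕ, 2 ≤ n → ∀ A : Finset (Fin n → Bool), A.Nonempty →
      IsUpperSet (A : Set (Fin n → Bool)) →
        ∃ t : ℕ, IsMixed A t ∧ (t : ℝ) ≤ C * n * Real.log n) := by
  refine ⟨?_, log_scale, ?_⟩
  · intro n k hk hkn
    obtain ⟨A, h1, h2, h3, h4⟩ := two_cubes (n := n) (k := k) hk hkn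
    refine ⟨A, h1, h2, h3, fun t ht => ?_⟩
    by_contra hcon
    push Not at hcon
    apply h4 t _ ht
    have hk0 : (0 : ℝ) < 2 * k := by
      have : (1 : ℝ) ≤ k := by exact_mod_cast hk
      linarith
    rwa [lt_div_iff₀ hk0] at hcon
  · rintro ⟨C, hC⟩
    obtain ⟨K, hK, N, hN⟩ := log_scale C
    obtain ⟨A, h1, h2, -, h4⟩ := hN (max N 2) (le_max_left _ _)
    obtain ⟨t, ht, htC⟩ := hC (max N 2) (le_max_right _ _) A h1 h2
    have := h4 t ht
    linarith

end

end Pool.Agent.Lib.MP_52661b_pr.Bot
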