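import Pool.Agent.Lib.MP_52661b_pr.Phi
import Pool.Agent.Lib.MP_52661b_pr.PhiJensen
import Pool.Agent.Lib.MP_52661b_pr.LevelsUpper

set_option autoImplicit false

namespace Pool.Agent.Lib.MP_52661b_pr

open Finset

noncomputable section

/-- indicator of `A` -/
def ind {n : ℕ} (A : Finset (Cube n)) (x : Cube n) : ℝ := if x ∈ A then 1 else 0

/-- probability to be in `A` after each coordinate is refreshed with probability `2^-k` -/
def nz {n : ℕ} (A : Finset (Cube n)) (k : ℕ) (x : Cube n) : ℝ := noise (1 - 1 / 2 ^ k) (ind A) x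

/-- three consecutive scales (cut at zero) -/
def wz {n : ℕ} (A : Finset (Cube n)) (k : ℕ) (x : Cube n) : ℝ :=
  nz A k x + nz A (k - 1) x + nz A (k - 2) x

/-- number of levels below `u` -/
def lvl (L : ℝ) (K : ℕ) (u : ℝ) : ℕ := ((range K).filter (fun k => 4 * lev L k ≤ u)).card

end

end Pool.Agent.Lib.MP_52661b_pr
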