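import Pool.Agent.Lib.MP_52661b_pr.Sh.Blk
import Pool.Agent.Lib.MP_52661b_pr.Sh.Dfs
import Pool.Agent.Lib.MP_52661b_pr.NoiseAlg
import Pool.Agent.Lib.MP_52661b_pr.NoiseWt
import Pool.Agent.Lib.MP_52661b_pr.StepBasic

set_option autoImplicit false

/-!
# Noise and the free walk commute; the noise moves a smooth function little

PROOF of `noise_eu`: `noise s` is the product of the one-coordinate operators. Direct: substitute `y -> update y i b`; or use
`sum_wt_favg` (`noise` is an average of `favg R`) and: `favg R` and `eu univ i` commute.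
PROOF of `noise_var`: `noise (1 - 1 / 2 ^ k) h x - h x = ∑ R, wt n (1 / 2 ^ k) R * (favg R h x - h x)` (`sum_wt_favg`, `sum_wt`),
Jensen (weights with sum one), `favgS`, `sum_wt_mem`.
-/

namespace Pool.Agent.Lib.MP_52661b_pr

open Finset

private theorem com_upper {n : ℕ} : IsUpperSet ((univ : Finset (Cube n)) : Set (Cube n)) := by
  intro a b _ _
  simp

/-- one-coordinate average of the kernel: in the first or in the second variable -/
private theorem com_ker {n : ℕ} (s : ℝ) (i : Fin n) (x y : Cube n) :
    ker s (Function.update x i false) y + ker s (Function.update x i true) y =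
      ker s x (Function.update y i false) + ker s x (Function.update y i true) := by
  classical
  have key : ∀ (u v : Cube n), ker s u v =
      (if u i = v i then (1 + s) / 2 else (1 - s) / 2) *
        ∏ j ∈ univ.erase i, (if u j = v j then (1 + s) / 2 else (1 - s) / 2) := by
    intro u v
    unfold ker
    exact (Finset.mul_prod_erase univ _ (mem_univ i)).symm
  have hL : ∀ b : Bool,
      ∏ j ∈ univ.erase i, (if (Function.update x i b) j = y j then (1 + s) / 2 else (1 - s) / 2) =
        ∏ j ∈ univ.erase i, (if x j = y j then (1 + s) / 2 else (1 - s) / 2) := by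
    intro b
    refine prod_congr rfl fun j hj => ?_
    rw [Function.update_of_ne (ne_of_mem_erase hj)]
  have hR : ∀ b : Bool,
      ∏ j ∈ univ.erase i, (if x j = (Function.update y i b) j then (1 + s) / 2 else (1 - s) / 2) =
        ∏ j ∈ univ.erase i, (if x j = y j then (1 + s) / 2 else (1 - s) / 2) := by
    intro b
    refine prod_congr rfl fun j hj => ?_
    rw [Function.update_of_ne (ne_of_mem_erase hj)]
  rw [key (Function.update x i false) y, key (Function.update x i true) y,
    key x (Function.update y i false), key x (Function.update y i true), hL, hL, hR, hR,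
    Function.update_self, Function.update_self, Function.update_self, Function.update_self,
    ← add_mul, ← add_mul]
  congr 1
  cases x i <;> cases y i <;> simp <;> ring

private theorem com_eu {n : ℕ} (i : Fin n) (f : Cube n → ℝ) (x : Cube n) :
    eu univ i f x = (f (Function.update x i false) + f (Function.update x i true)) / 2 := by
  unfold eu
  rw [if_pos (mem_univ _)]

theorem noise_eu {n : ℕ} (s : ℝ) (h : Cube n → ℝ) (i : Fin n) (x : Cube n) :
    eu univ i (noise s h) x = noise s (eu univ i h) x := by
  have h1 : noise s (eu univ i h) x = ∑ y : Cube n, eu univ i (fun z => ker s x z) y * h y := by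
    have := eu_symm com_upper i (fun z => ker s x z) h
    rw [this]
    rfl
  rw [h1, com_eu]
  unfold noise
  rw [← sum_add_distrib, sum_div]
  refine sum_congr rfl fun y _ => ?_
  rw [com_eu, ← com_ker s i x y]
  ring

private theorem com_step {n : ℕ} (s : ℝ) (h : Cube n → ℝ) (x : Cube n) :
    step univ (noise s h) x = noise s (step univ h) x := by
  unfold step
  rw [sum_congr rfl fun i _ => noise_eu s h i x]
  unfold noise
  rw [sum_comm, mul_sum]
  refine sum_congr rfl fun y _ => ?_
  rw [← mul_sum]
  ring

theorem noise_step {n : ℕ} (s : ℝ) (h : Cube n → ℝ) (t : ℕ) (x : Cube n) :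
    (step univ)^[t] (noise s h) x = noise s ((step univ)^[t] h) x := by
  induction t generalizing h x with
  | zero => rfl
  | succ t ih =>
    rw [Function.iterate_succ_apply, Function.iterate_succ_apply]
    have e : step univ (noise s h) = noise s (step univ h) := funext fun y => com_step s h y
    rw [e, ih]

private theorem com_jensen {n : ℕ} (p : ℝ) (h0 : 0 ≤ p) (h1 : p ≤ 1) (a : Finset (Fin n) → ℝ) :
    (∑ R : Finset (Fin n), wt n p R * a R) ^ 2 ≤ ∑ R : Finset (Fin n), wt n p R * (a R) ^ 2 := by
  have h := Finset.sum_sq_le_sum_mul_sum_of_sq_le_mul (univ : Finset (Finset (Fin n)))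
    (r := fun R => wt n p R * a R) (f := fun R => wt n p R) (g := fun R => wt n p R * (a R) ^ 2)
    (fun R _ => wt_nonneg p h0 h1 R) (fun R _ => mul_nonneg (wt_nonneg p h0 h1 R) (sq_nonneg _))
    (fun R _ => le_of_eq (by ring))
  rw [sum_wt, one_mul] at h
  exact h

theorem noise_var {n : ℕ} (k : ℕ) (h : Cube n → ℝ) :
    ∑ x : Cube n, (noise (1 - 1 / 2 ^ k) h x - h x) ^ 2 ≤ 9 / 2 ^ k * energy univ h := by
  have hp0 : (0 : ℝ) ≤ 1 / 2 ^ k := by positivity
  have hp1 : (1 : ℝ) / 2 ^ k ≤ 1 := by
    rw [div_le_one (by positivity)]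
    exact one_le_pow₀ (by norm_num)
  have e1 : ∀ x : Cube n, noise (1 - 1 / 2 ^ k) h x - h x =
      ∑ R : Finset (Fin n), wt n (1 / 2 ^ k) R * (favg R h x - h x) := by
    intro x
    rw [← sum_wt_favg]
    have : ∑ R : Finset (Fin n), wt n (1 / 2 ^ k) R * (favg R h x - h x) =
        ∑ R : Finset (Fin n), wt n (1 / 2 ^ k) R * favg R h x -
          (∑ R : Finset (Fin n), wt n (1 / 2 ^ k) R) * h x := by
      rw [sum_mul, ← sum_sub_distrib]
      exact sum_congr rfl fun R _ => by ring
    rw [this, sum_wt, one_mul]
  calc ∑ x : Cube n, (noise (1 - 1 / 2 ^ k) h x - h x) ^ 2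
      ≤ ∑ x : Cube n, ∑ R : Finset (Fin n), wt n (1 / 2 ^ k) R * (favg R h x - h x) ^ 2 := by
        refine sum_le_sum fun x _ => ?_
        rw [e1 x]
        exact com_jensen _ hp0 hp1 _
    _ = ∑ R : Finset (Fin n), wt n (1 / 2 ^ k) R * ∑ x : Cube n, (h x - favg R h x) ^ 2 := by
        rw [sum_comm]
        refine sum_congr rfl fun R _ => ?_
        rw [mul_sum]
        exact sum_congr rfl fun x _ => by ring
    _ ≤ ∑ R : Finset (Fin n), wt n (1 / 2 ^ k) R *
          ∑ i ∈ R, (9 * ∑ x : Cube n, (h x - eu univ i h x) ^ 2) := by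
        refine sum_le_sum fun R _ => mul_le_mul_of_nonneg_left ?_ (wt_nonneg _ hp0 hp1 R)
        rw [← mul_sum]
        exact favgS h R
    _ = 9 / 2 ^ k * energy univ h := by
        rw [sum_wt_mem, ← mul_sum]
        unfold energy
        ring

end Pool.Agent.Lib.MP_52661b_pr
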