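import Pool.Agent.Lib.MP_52661b_pr.Sh.Bot

set_option autoImplicit false

/-!
# Lower bound for the best constant at density `δ`
-/

namespace Pool.Agent.Lib.MP_52661b_pr.Bot

open Finset

/-- if `C n log n` steps are enough for all monotone sets of measure at least `δ`, then
`C ≥ 1 / (40 δ log (1 / δ) log log (1 / δ))` -/
theorem const_lower (δ C : ℝ) (h0 : 0 < δ) (h1 : δ ≤ 1 / 4)
    (h : ∀ n : ℕ, 2 ≤ n → ∀ A : Finset (Fin n → Bool), A.Nonempty →
      IsUpperSet (A : Set (Fin n → Bool)) → δ ≤ cubeMeasure A →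
        ∃ t : ℕ, IsMixed A t ∧ (t : ℝ) ≤ C * n * Real.log n) :
    1 / (40 * δ * Real.log (1 / δ) * Real.log (Real.log (1 / δ))) ≤ C := by
  have hl2 : (0.6931 : ℝ) < Real.log 2 := by
    have := Real.log_two_gt_d9
    linarith
  have hl2' : Real.log 2 < 0.6932 := by
    have := Real.log_two_lt_d9
    linarith
  have h4 : (4 : ℝ) ≤ 1 / δ := by
    rw [le_div_iff₀ h0]; linarith
  obtain ⟨m, hm1, hm2⟩ := exists_nat_pow_near (x := 1 / δ) (y := (2 : ℝ)) (by linarith)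
    (by norm_num)
  have hm : 2 ≤ m := by
    by_contra hc
    have h5 : (2 : ℝ) ^ (m + 1) ≤ 2 ^ 2 := pow_le_pow_right₀ (by norm_num) (by omega)
    norm_num at h5
    linarith
  obtain ⟨A, hA1, hA2, hA3, hA4⟩ := lower.1 (2 * m) m (by omega) le_rfl
  have hδA : δ ≤ cubeMeasure A := by
    refine le_trans ?_ hA3
    rw [le_div_iff₀ (by positivity)]
    rw [le_div_iff₀ h0] at hm1
    linarith
  obtain ⟨t, ht1, ht2⟩ := h (2 * m) (by omega) A hA1 hA2 hδA
  have h5 := hA4 t ht1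
  have hm0 : (2 : ℝ) ≤ m := by exact_mod_cast hm
  have h6 : ((2 * m : ℕ) : ℝ) * (2 ^ m - 1) / (2 * m) = 2 ^ m - 1 := by
    push_cast
    field_simp
  rw [h6] at h5
  push_cast at ht2
  set ℓ : ℝ := Real.log (1 / δ) with hℓ
  set lam : ℝ := Real.log ℓ with hlam
  have hℓ1 : 1.386 ≤ ℓ := by
    have h7 : Real.log 4 ≤ ℓ := Real.log_le_log (by norm_num) h4
    have h8 : Real.log 4 = 2 * Real.log 2 := by
      rw [show (4 : ℝ) = 2 ^ 2 by norm_num, Real.log_pow]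
      norm_num
    linarith
  have hℓ0 : 0 < ℓ := by linarith
  have hlam1 : 0.278 ≤ lam := by
    have h7 : 1 - ℓ⁻¹ ≤ Real.log ℓ := Real.one_sub_inv_le_log_of_pos hℓ0
    have h8 : ℓ⁻¹ ≤ (1.386 : ℝ)⁻¹ := inv_anti₀ (by norm_num) hℓ1
    have h9 : (1.386 : ℝ)⁻¹ ≤ 0.722 := by norm_num
    linarith
  have hlam0 : 0 < lam := by linarith
  -- `m log 2 ≤ ℓ`
  have h7 : (m : ℝ) * Real.log 2 ≤ ℓ := by
    have := Real.log_le_log (by positivity) hm1
    rwa [Real.log_pow] at this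
  have h8 : 2 * (m : ℝ) ≤ 2.886 * ℓ := by nlinarith
  have h9 : Real.log (2 * (m : ℝ)) ≤ 1.137 + lam := by
    have h10 : Real.log (2 * (m : ℝ)) ≤ Real.log (2.886 * ℓ) :=
      Real.log_le_log (by linarith) h8
    have h12 : Real.log (2.886 * ℓ) = Real.log 2 + Real.log 1.443 + Real.log ℓ := by
      rw [show (2.886 : ℝ) * ℓ = (2 * 1.443) * ℓ by norm_num,
        Real.log_mul (by norm_num) hℓ0.ne', Real.log_mul (by norm_num) (by norm_num)]
    have h11 : Real.log (1.443 : ℝ) ≤ 1.443 - 1 := Real.log_le_sub_one_of_pos (by norm_num)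
    rw [h12, ← hlam] at h10
    linarith
  have h10 : Real.log (2 * (m : ℝ)) ≤ 5.095 * lam := by linarith
  have h10' : 0 < Real.log (2 * (m : ℝ)) := Real.log_pos (by linarith)
  have h11 : 2 * (m : ℝ) * Real.log (2 * (m : ℝ)) ≤ 15 * (ℓ * lam) := by
    calc 2 * (m : ℝ) * Real.log (2 * (m : ℝ)) ≤ (2.886 * ℓ) * (5.095 * lam) :=
          mul_le_mul h8 h10 h10'.le (by positivity)
      _ ≤ 15 * (ℓ * lam) := by nlinarith [mul_pos hℓ0 hlam0]
  have h12 : (3 / 8) * (1 / δ) ≤ 2 ^ m - 1 := by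
    have h13 : (4 : ℝ) ≤ 2 ^ m := by
      calc (4 : ℝ) = 2 ^ 2 := by norm_num
        _ ≤ 2 ^ m := pow_le_pow_right₀ (by norm_num) hm
    rw [pow_succ] at hm2
    linarith
  have hC0 : 0 < C := by
    by_contra hc
    push Not at hc
    have h13 : C * (2 * (m : ℝ)) * Real.log (2 * (m : ℝ)) ≤ 0 := by
      have : 0 ≤ (2 * (m : ℝ)) * Real.log (2 * (m : ℝ)) := by positivity
      nlinarith
    have : 0 < 1 / δ := by positivity
    linarith
  have h13 : (3 / 8) * (1 / δ) ≤ C * (15 * (ℓ * lam)) := by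
    have : C * (2 * (m : ℝ) * Real.log (2 * (m : ℝ))) ≤ C * (15 * (ℓ * lam)) :=
      mul_le_mul_of_nonneg_left h11 hC0.le
    linarith
  rw [div_le_iff₀ (by positivity)]
  have h14 : (3 / 8) ≤ C * (15 * (ℓ * lam)) * δ := by
    rw [mul_one_div, div_le_iff₀ h0] at h13
    exact h13
  nlinarith

end Pool.Agent.Lib.MP_52661b_pr.Bot
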