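import Pool.Agent.Lib.MP_52661b_pr.Sh.Key
import Pool.Agent.Lib.MP_52661b_pr.OneStep

set_option autoImplicit false

/-!
# The potential decreases

PROOF: as `descent` in `Descent.lean`, with `key3` in place of `key` (no good set, no lower bound of the levels):
`phi_step` for every `k`, `key3` for `g k x = rt (lev L k) (lev L (k + 1)) (f x)`, exchange of the sums,
`levels_upper` and `hfs` for the error term.
-/

namespace Pool.Agent.Lib.MP_52661b_pr

open Finset

theorem descentS {n : ℕ} (hn : 0 < n) {A : Finset (Cube n)} (hA : IsUpperSet (A : Set (Cube n)))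
    (L : ℝ) (hL : 2 ≤ L) (K : ℕ) (f : Cube n → ℝ) (hf : ∀ x, 0 ≤ f x)
    (hfs : ∑ x ∈ A, f x = (A.card : ℝ)) :
    pot A L K (step A f) ≤ pot A L K f - (1 / (216 * n)) *
      (∑ x ∈ A, ∑ k ∈ range K, wz A k x * (rt (lev L k) (lev L (k + 1)) (f x)) ^ 2 -
        3 / L * (A.card : ℝ)) := by
  classical
  have hL1 : (1 : ℝ) ≤ L := by linarith
  have hn' : (0 : ℝ) < n := by exact_mod_cast hn
  set g : ℕ → Cube n → ℝ := fun k x => rt (lev L k) (lev L (k + 1)) (f x) with hg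
  have hg0 : ∀ k x, 0 ≤ g k x := fun k x =>
    rt_nonneg _ _ _ (by linarith [lev_pos L hL1 k]) (lev_le_succ L hL1 k)
  have hcard : (A.card : ℝ) ≤ 2 ^ n := by
    have h1 : A.card ≤ 2 ^ n := by
      have := card_le_univ A
      simpa using this
    exact_mod_cast h1
  -- the support
  have hsupp : ∀ k, (((A.filter (fun x => g k x ≠ 0)).card : ℕ) : ℝ) * lev L k ≤ 2 ^ n := by
    intro k
    calc (((A.filter (fun x => g k x ≠ 0)).card : ℕ) : ℝ) * lev L k
        = ∑ _x ∈ A.filter (fun x => g k x ≠ 0), lev L k := by rw [sum_const, nsmul_eq_mul]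
      _ ≤ ∑ x ∈ A.filter (fun x => g k x ≠ 0), f x := by
          refine sum_le_sum fun x hx => ?_
          rw [mem_filter] at hx
          by_contra hcon
          push Not at hcon
          exact hx.2 (rt_eq_zero _ _ _ (by linarith [lev_pos L hL1 k]) (lev_le_succ L hL1 k)
            hcon.le)
      _ ≤ ∑ x ∈ A, f x := sum_le_sum_of_subset_of_nonneg (filter_subset _ _) fun x _ _ => hf x
      _ ≤ 2 ^ n := by rw [hfs]; exact hcard
  have hE : ∀ k, 2 ^ (k + 1) / 216 *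
      (∑ x ∈ A, wz A k x * (g k x) ^ 2 - 3 / L * ∑ x ∈ A, (g k x) ^ 2) ≤ energy A (g k) :=
    fun k => key3 hA k L hL1 (g k) (hg0 k) (hsupp k)
  have hstep : ∀ k, ∑ x ∈ A, phi (lev L k) (lev L (k + 1)) (step A f x) ≤
      ∑ x ∈ A, phi (lev L k) (lev L (k + 1)) (f x) - (1 / (n : ℝ)) * energy A (g k) := fun k =>
    phi_step hn hA _ _ (by linarith [lev_pos L hL1 k]) (lev_le_succ L hL1 k) f hf
  -- sum over the levels
  have h1 : pot A L K (step A f) ≤ pot A L K f - ∑ k ∈ range K, 1 / (216 * n) *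
      (∑ x ∈ A, wz A k x * (g k x) ^ 2 - 3 / L * ∑ x ∈ A, (g k x) ^ 2) := by
    unfold pot
    rw [← sum_sub_distrib]
    refine sum_le_sum fun k _ => ?_
    have h2 := hE k
    have h3 := hstep k
    have hp : (0 : ℝ) < 2 ^ (k + 1) := by positivity
    set W := ∑ x ∈ A, wz A k x * (g k x) ^ 2 - 3 / L * ∑ x ∈ A, (g k x) ^ 2 with hW
    have h4 : (1 / (n : ℝ)) * (2 ^ (k + 1) / 216 * W) ≤ (1 / (n : ℝ)) * energy A (g k) :=
      mul_le_mul_of_nonneg_left h2 (by positivity)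
    have h5 : 1 / 2 ^ (k + 1) * ∑ x ∈ A, phi (lev L k) (lev L (k + 1)) (step A f x) ≤
        1 / 2 ^ (k + 1) * (∑ x ∈ A, phi (lev L k) (lev L (k + 1)) (f x) -
          (1 / (n : ℝ)) * (2 ^ (k + 1) / 216 * W)) :=
      mul_le_mul_of_nonneg_left (by linarith) (by positivity)
    refine h5.trans (le_of_eq ?_)
    field_simp
  -- exchange the sums
  have h6 : ∑ k ∈ range K, 1 / (216 * (n : ℝ)) *
      (∑ x ∈ A, wz A k x * (g k x) ^ 2 - 3 / L * ∑ x ∈ A, (g k x) ^ 2) = 1 / (216 * (n : ℝ)) *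
      (∑ x ∈ A, ∑ k ∈ range K, wz A k x * (g k x) ^ 2 -
        3 / L * ∑ x ∈ A, ∑ k ∈ range K, (g k x) ^ 2) := by
    rw [← mul_sum, sum_sub_distrib, ← mul_sum, sum_comm, sum_comm (s := range K) (t := A)]
  have h7 : ∑ x ∈ A, ∑ k ∈ range K, (g k x) ^ 2 ≤ (A.card : ℝ) := by
    rw [← hfs]
    exact sum_le_sum fun x _ => levels_upper L hL K (f x) (hf x)
  rw [h6] at h1
  refine h1.trans ?_
  have h9 : 0 ≤ 1 / (216 * (n : ℝ)) := by positivity
  have h10 : 0 ≤ 3 / L := by positivity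
  have h11 : ∑ x ∈ A, ∑ k ∈ range K, wz A k x * (g k x) ^ 2 - 3 / L * (A.card : ℝ) ≤
      ∑ x ∈ A, ∑ k ∈ range K, wz A k x * (g k x) ^ 2 -
        3 / L * ∑ x ∈ A, ∑ k ∈ range K, (g k x) ^ 2 := by
    have h12 := mul_le_mul_of_nonneg_left h7 h10
    linarith
  have h13 := mul_le_mul_of_nonneg_left h11 h9
  linarith

end Pool.Agent.Lib.MP_52661b_pr
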