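import Pool.Agent.Lib.MP_52661b_pr.Sh.LvlD
import Pool.Agent.Lib.MP_52661b_pr.StepBasic

set_option autoImplicit false

/-!
# Iterates are averages; a drop of two levels costs potential

`it_lin`: induction on `s`. `it_sum`: `step_sum`.
PROOF of `dropS`: for `y ∈ A` apply `(step A)^[s] (.) y` to the pointwise inequality `lvl_drop` with `u = (step A)^[s] f y`
fixed and `v = f x` (`step_iter_mono`, `it_lin`): the affine part becomes
`∑ k, (1 / 2 ^ (k + 1)) (u log (c_k / a_k) - c_k + a_k) = ∑ k, (1 / 2 ^ (k + 1)) phi a_k b_k u` (definition of `phi`).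
Sum over `y ∈ A`; the right side is `pot A L K f` by `it_sum`.
-/

namespace Pool.Agent.Lib.MP_52661b_pr

open Finset

private theorem dp_eu_lin {n : ℕ} (A : Finset (Cube n)) (i : Fin n) (a b c : ℝ)
    (f g : Cube n → ℝ) (x : Cube n) :
    eu A i (fun z => a * f z + b * g z + c) x = a * eu A i f x + b * eu A i g x + c := by
  unfold eu
  split_ifs
  · ring
  · rfl

private theorem dp_step_lin {n : ℕ} (hn : 0 < n) (A : Finset (Cube n)) (a b c : ℝ)
    (f g : Cube n → ℝ) (x : Cube n) :
    step A (fun z => a * f z + b * g z + c) x = a * step A f x + b * step A g x + c := by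
  have hn' : (n : ℝ) ≠ 0 := by
    have : (0 : ℝ) < n := by exact_mod_cast hn
    exact this.ne'
  unfold step
  rw [sum_congr rfl fun i _ => dp_eu_lin A i a b c f g x, sum_add_distrib, sum_add_distrib,
    ← mul_sum, ← mul_sum, sum_const, card_univ, Fintype.card_fin, nsmul_eq_mul]
  field_simp

theorem it_lin {n : ℕ} (hn : 0 < n) (A : Finset (Cube n)) (s : ℕ) (a b c : ℝ)
    (f g : Cube n → ℝ) (x : Cube n) :
    (step A)^[s] (fun z => a * f z + b * g z + c) x =
      a * (step A)^[s] f x + b * (step A)^[s] g x + c := by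
  induction s generalizing f g x with
  | zero => rfl
  | succ s ih =>
    rw [Function.iterate_succ_apply, Function.iterate_succ_apply, Function.iterate_succ_apply]
    have h : step A (fun z => a * f z + b * g z + c) =
        fun z => a * step A f z + b * step A g z + c :=
      funext fun z => dp_step_lin hn A a b c f g z
    rw [h, ih]

theorem it_sum {n : ℕ} (hn : 0 < n) {A : Finset (Cube n)} (hA : IsUpperSet (A : Set (Cube n)))
    (s : ℕ) (f : Cube n → ℝ) : ∑ x ∈ A, (step A)^[s] f x = ∑ x ∈ A, f x := by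
  induction s with
  | zero => rfl
  | succ s ih =>
    rw [← ih, ← step_sum hn hA ((step A)^[s] f)]
    refine sum_congr rfl fun x _ => ?_
    rw [Function.iterate_succ_apply']

theorem it_nonneg {n : ℕ} {A : Finset (Cube n)} (s : ℕ) (f : Cube n → ℝ) (hf : ∀ x, 0 ≤ f x)
    (x : Cube n) : 0 ≤ (step A)^[s] f x := by
  induction s generalizing x with
  | zero => exact hf x
  | succ s ih =>
    rw [Function.iterate_succ_apply']
    exact step_nonneg _ ih x

theorem dropS {n : ℕ} (hn : 0 < n) {A : Finset (Cube n)} (hA : IsUpperSet (A : Set (Cube n)))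
    {L : ℝ} (hL : 3 ≤ L) (K s : ℕ) (f : Cube n → ℝ) (hf : ∀ x, 0 ≤ f x) :
    Real.log L * ∑ y ∈ A, (step A)^[s]
      (fun x => if lvl L K ((step A)^[s] f y) + 2 ≤ lvl L K (f x) then f x else 0) y ≤
      pot A L K f - pot A L K ((step A)^[s] f) := by
  have hpot : ∀ g : Cube n → ℝ, pot A L K g =
      ∑ x ∈ A, ∑ k ∈ range K, (1 / 2 ^ (k + 1)) * phi (lev L k) (lev L (k + 1)) (g x) := by
    intro g
    unfold pot
    rw [sum_comm]
    exact sum_congr rfl fun k _ => mul_sum _ _ _
  have key : ∀ y ∈ A, (∑ k ∈ range K, (1 / 2 ^ (k + 1)) *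
        phi (lev L k) (lev L (k + 1)) ((step A)^[s] f y)) +
      Real.log L * (step A)^[s]
        (fun x => if lvl L K ((step A)^[s] f y) + 2 ≤ lvl L K (f x) then f x else 0) y ≤
      (step A)^[s] (fun x => ∑ k ∈ range K, (1 / 2 ^ (k + 1)) *
        phi (lev L k) (lev L (k + 1)) (f x)) y := by
    intro y hy
    have hu : 0 ≤ (step A)^[s] f y := it_nonneg s f hf y
    obtain ⟨u, hu'⟩ : ∃ u, u = (step A)^[s] f y := ⟨_, rfl⟩
    rw [← hu'] at hu ⊢
    set h : Cube n → ℝ := fun x => if lvl L K u + 2 ≤ lvl L K (f x) then f x else 0 with hh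
    set α : ℝ := ∑ k ∈ range K, (1 / 2 ^ (k + 1)) *
      Real.log (clp (lev L k) (lev L (k + 1)) u / lev L k) with hα
    set β : ℝ := ∑ k ∈ range K, (1 / 2 ^ (k + 1)) *
      (lev L k - clp (lev L k) (lev L (k + 1)) u) with hβ
    have hpt : ∀ x ∈ A, (fun z => α * f z + Real.log L * h z + β) x ≤
        (fun x => ∑ k ∈ range K, (1 / 2 ^ (k + 1)) *
          phi (lev L k) (lev L (k + 1)) (f x)) x := by
      intro x _
      have h1 := lvl_drop hL K hu (hf x)
      refine le_trans (le_of_eq ?_) h1
      change α * f x + Real.log L * h x + β = _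
      have h2 : (∑ k ∈ range K, (1 / 2 ^ (k + 1)) *
          (f x * Real.log (clp (lev L k) (lev L (k + 1)) u / lev L k) -
          clp (lev L k) (lev L (k + 1)) u + lev L k)) = α * f x + β := by
        rw [hα, hβ, sum_mul, ← sum_add_distrib]
        refine sum_congr rfl fun k _ => ?_
        ring
      rw [h2]
      ring
    have h3 := step_iter_mono hA s _ _ hpt y hy
    rw [it_lin hn A s α (Real.log L) β f h y, ← hu'] at h3
    refine le_trans (le_of_eq ?_) h3
    have h4 : (∑ k ∈ range K, (1 / 2 ^ (k + 1)) * phi (lev L k) (lev L (k + 1)) u) =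
        α * u + β := by
      rw [hα, hβ, sum_mul, ← sum_add_distrib]
      refine sum_congr rfl fun k _ => ?_
      unfold phi
      ring
    rw [h4]
    ring
  have h5 := sum_le_sum key
  rw [sum_add_distrib, it_sum hn hA, ← mul_sum, ← hpot, ← hpot] at h5
  linarith

end Pool.Agent.Lib.MP_52661b_pr
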