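import Pool.Agent.Lib.MP_52661b_pr.Sh.Blk
import Pool.Agent.Lib.MP_52661b_pr.Sh.Dfs
import Pool.Agent.Lib.MP_52661b_pr.SmallSet
import Pool.Agent.Lib.MP_52661b_pr.NoiseWt
import Pool.Agent.Lib.MP_52661b_pr.GoodSet

set_option autoImplicit false

/-!
# Energy lower bound for functions of small support, with the weight `nz`

PROOF of `nz_eq`: `dens A R x = favg R (ind A) x` and `sum_wt_favg`.
`nz_mono`: from `nz_eq` and `gs_dens_mono` (GoodSet.lean; copy it or import the file).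
PROOF of `keyS`: average `blockS` over `R` with weights `wt n (1 / 2 ^ k) R` (`sum_wt_mem`): the sum of
`wt * ∑ dens f ^ 2` is `∑ x ∈ A, nz A k x * f x ^ 2`; the sum of `wt * ∑ dens cmean ^ 2` is
`∑ x, ext A f x * noise (1 - 1 / 2 ^ k) (ext A f) x ≤ (1 / L) ∑ x ∈ A, f x ^ 2` (`cmeanS`, `sum_wt_favg`, `small_set`),
as in `Key.lean` of the parent folder.
PROOF of `key3`: `keyS` for `k`, `k - 1`, `k - 2` (`lev L` is monotone, so the support hypothesis holds for them),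
`2 ^ (k - j + 1) / 18 ≥ 2 ^ (k + 1) / 72` and `energy ≥ 0`: for every bracket `B`, `2 ^ (k + 1) / 72 * B ≤ energy`; average.
-/

namespace Pool.Agent.Lib.MP_52661b_pr

open Finset

private theorem ks_p0 (k : ℕ) : (0 : ℝ) ≤ 1 / 2 ^ k := by positivity

private theorem ks_p1 (k : ℕ) : (1 : ℝ) / 2 ^ k ≤ 1 := by
  rw [div_le_one (by positivity)]
  exact one_le_pow₀ (by norm_num)

private theorem ks_dens_eq {n : ℕ} (A : Finset (Cube n)) (R : Finset (Fin n)) (x : Cube n) :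
    dens A R x = favg R (ind A) x := by
  unfold dens favg
  congr 1
  have h1 : ∀ y ∈ fib univ R x, ind A y = if y ∈ A then (1 : ℝ) else 0 := fun y _ => rfl
  rw [Finset.sum_congr rfl h1, ← Finset.sum_filter, Finset.sum_const, nsmul_eq_mul, mul_one]
  have h2 : fib A R x = (fib univ R x).filter (fun y => y ∈ A) := by
    ext y
    simp only [fib, Finset.mem_filter, Finset.mem_univ, true_and]
    exact And.comm
  rw [h2]

theorem nz_eq {n : ℕ} (A : Finset (Cube n)) (k : ℕ) (x : Cube n) :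
    nz A k x = ∑ R : Finset (Fin n), wt n (1 / 2 ^ k) R * dens A R x := by
  unfold nz
  rw [← sum_wt_favg]
  refine Finset.sum_congr rfl fun R _ => ?_
  rw [ks_dens_eq]

theorem nz_nonneg {n : ℕ} (A : Finset (Cube n)) (k : ℕ) (x : Cube n) : 0 ≤ nz A k x := by
  rw [nz_eq]
  refine Finset.sum_nonneg fun R _ => mul_nonneg (wt_nonneg _ (ks_p0 k) (ks_p1 k) R) ?_
  unfold dens
  positivity

private theorem ks_fib_card {n : ℕ} (A : Finset (Cube n)) (R : Finset (Fin n)) (x : Cube n) :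
    (fib A R x).card ≤ 2 ^ R.card := by
  classical
  have h : (fib A R x).card ≤ R.powerset.card := by
    apply Finset.card_le_card_of_injOn (fun z => R.filter (fun j => z j = true))
    · intro z _
      exact_mod_cast Finset.mem_powerset.2 (Finset.filter_subset _ _)
    · intro z hz z' hz' heq
      have h1 : z ∈ A ∧ ∀ j, j ∉ R → z j = x j := by simpa [fib] using hz
      have h2 : z' ∈ A ∧ ∀ j, j ∉ R → z' j = x j := by simpa [fib] using hz'
      funext j
      by_cases hj : j ∈ R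
      · have h3 : j ∈ R.filter (fun j => z j = true) ↔ j ∈ R.filter (fun j => z' j = true) := by
          have heq' : R.filter (fun j => z j = true) = R.filter (fun j => z' j = true) := heq
          rw [heq']
        simp only [Finset.mem_filter, hj, true_and] at h3
        cases hz1 : z j <;> cases hz2 : z' j <;> simp_all
      · rw [h1.2 j hj, h2.2 j hj]
  rwa [Finset.card_powerset] at h

private theorem ks_dens_le_one {n : ℕ} (A : Finset (Cube n)) (R : Finset (Fin n)) (x : Cube n) :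
    dens A R x ≤ 1 := by
  unfold dens
  rw [div_le_one (by positivity)]
  exact_mod_cast ks_fib_card A R x

theorem nz_le_one {n : ℕ} (A : Finset (Cube n)) (k : ℕ) (x : Cube n) : nz A k x ≤ 1 := by
  rw [nz_eq]
  refine le_trans (Finset.sum_le_sum fun R _ => ?_) (sum_wt (n := n) (1 / 2 ^ k : ℝ)).le
  have h1 := mul_le_mul_of_nonneg_left (ks_dens_le_one A R x)
    (wt_nonneg (n := n) _ (ks_p0 k) (ks_p1 k) R)
  rwa [mul_one] at h1

theorem nz_mono {n : ℕ} {A : Finset (Cube n)} (hA : IsUpperSet (A : Set (Cube n))) (k : ℕ) :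
    Monotone (nz A k) := by
  intro x y hxy
  rw [nz_eq, nz_eq]
  exact Finset.sum_le_sum fun R _ => mul_le_mul_of_nonneg_left (gs_dens_mono hA R hxy)
    (wt_nonneg _ (ks_p0 k) (ks_p1 k) R)

private theorem ks_sum_ext_sq {n : ℕ} (A : Finset (Cube n)) (f : Cube n → ℝ) :
    ∑ x : Cube n, (ext A f x) ^ 2 = ∑ x ∈ A, (f x) ^ 2 := by
  have : ∀ x : Cube n, (ext A f x) ^ 2 = if x ∈ A then (f x) ^ 2 else 0 := by
    intro x
    rw [ext]
    split_ifs <;> simp
  simp only [this]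
  rw [← Finset.sum_filter]
  congr 1
  ext x
  simp

private theorem ks_energy_nonneg {n : ℕ} (A : Finset (Cube n)) (f : Cube n → ℝ) :
    0 ≤ energy A f :=
  Finset.sum_nonneg fun _ _ => Finset.sum_nonneg fun _ _ => sq_nonneg _

theorem keyS {n : ℕ} {A : Finset (Cube n)} (hA : IsUpperSet (A : Set (Cube n))) (k : ℕ)
    (L : ℝ) (hL : 1 ≤ L) (f : Cube n → ℝ) (hf : ∀ x, 0 ≤ f x)
    (hsupp : (((A.filter (fun x => f x ≠ 0)).card : ℕ) : ℝ) * lev L k ≤ 2 ^ n) :
    2 ^ (k + 1) / 18 *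
        (∑ x ∈ A, nz A k x * (f x) ^ 2 - 1 / L * ∑ x ∈ A, (f x) ^ 2) ≤ energy A f := by
  have h2 : (0 : ℝ) < 2 ^ k := by positivity
  have hw := fun R => wt_nonneg (n := n) (1 / 2 ^ k) (ks_p0 k) (ks_p1 k) R
  have h1 : ∑ R : Finset (Fin n), wt n (1 / 2 ^ k) R *
      (∑ x ∈ A, dens A R x * ((f x) ^ 2 - (cmean A R f x) ^ 2)) ≤
      9 * ((1 / 2 ^ k) * energy A f) := by
    rw [energy, ← sum_wt_mem, Finset.mul_sum]
    apply Finset.sum_le_sum
    intro R _
    have := mul_le_mul_of_nonneg_left (blockS hA f R) (hw R)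
    calc _ ≤ _ := this
      _ = _ := by ring
  have h3 : ∑ R : Finset (Fin n), wt n (1 / 2 ^ k) R *
      (∑ x ∈ A, dens A R x * ((f x) ^ 2 - (cmean A R f x) ^ 2)) =
      ∑ x ∈ A, nz A k x * (f x) ^ 2 -
      ∑ R : Finset (Fin n), wt n (1 / 2 ^ k) R *
        (∑ x ∈ A, dens A R x * (cmean A R f x) ^ 2) := by
    have e1 : ∑ x ∈ A, nz A k x * (f x) ^ 2 =
        ∑ R : Finset (Fin n), wt n (1 / 2 ^ k) R * ∑ x ∈ A, dens A R x * (f x) ^ 2 := by
      simp only [nz_eq, Finset.mul_sum, Finset.sum_mul]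
      rw [Finset.sum_comm]
      refine Finset.sum_congr rfl fun R _ => Finset.sum_congr rfl fun x _ => ?_
      ring
    rw [e1, ← Finset.sum_sub_distrib]
    refine Finset.sum_congr rfl fun R _ => ?_
    rw [← mul_sub, ← Finset.sum_sub_distrib]
    congr 1
    refine Finset.sum_congr rfl fun x _ => ?_
    ring
  have hFs : (((univ.filter (fun x => ext A f x ≠ 0)).card : ℕ) : ℝ) * lev L k ≤ 2 ^ n := by
    have : univ.filter (fun x => ext A f x ≠ 0) = A.filter (fun x => f x ≠ 0) := by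
      ext x
      simp only [Finset.mem_filter, Finset.mem_univ, true_and, ext]
      by_cases hx : x ∈ A <;> simp [hx]
    rw [this]
    exact hsupp
  have hF0 : ∀ x : Cube n, 0 ≤ ext A f x := by
    intro x
    rw [ext]
    split_ifs
    · exact hf x
    · exact le_rfl
  have h5 : ∑ R : Finset (Fin n), wt n (1 / 2 ^ k) R *
      (∑ x ∈ A, dens A R x * (cmean A R f x) ^ 2) ≤
      1 / L * ∑ x ∈ A, (f x) ^ 2 := by
    calc ∑ R : Finset (Fin n), wt n (1 / 2 ^ k) R *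
          (∑ x ∈ A, dens A R x * (cmean A R f x) ^ 2)
        = ∑ x : Cube n, ext A f x * noise (1 - 1 / 2 ^ k) (ext A f) x := by
          simp only [cmeanS]
          simp only [← sum_wt_favg, Finset.mul_sum]
          rw [Finset.sum_comm]
          refine Finset.sum_congr rfl fun R _ => Finset.sum_congr rfl fun x _ => ?_
          ring
      _ ≤ (1 / L) * ∑ x : Cube n, (ext A f x) ^ 2 := small_set k L hL (ext A f) hF0 hFs
      _ = _ := by rw [ks_sum_ext_sq]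
  have h6 : ∑ x ∈ A, nz A k x * (f x) ^ 2 - 1 / L * ∑ x ∈ A, (f x) ^ 2 ≤
      9 * ((1 / 2 ^ k) * energy A f) := by
    linarith
  have h7 : (0 : ℝ) ≤ 2 ^ (k + 1) / 18 := by positivity
  have h8 := mul_le_mul_of_nonneg_left h6 h7
  refine h8.trans (le_of_eq ?_)
  have h9 : (2 : ℝ) ^ (k + 1) / 18 * (9 * ((1 / 2 ^ k) * energy A f)) =
      (2 ^ k / 2 ^ k) * energy A f := by
    rw [pow_succ 2 k]
    ring
  rw [h9, div_self h2.ne', one_mul]

private theorem ks_lev_mono (L : ℝ) (hL : 1 ≤ L) {j k : ℕ} (h : j ≤ k) : lev L j ≤ lev L k := by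
  unfold lev
  apply pow_le_pow_right₀ hL
  have : 2 ^ (j + 1) ≤ 2 ^ (k + 1) := Nat.pow_le_pow_right (by norm_num) (by omega)
  omega

private theorem ks_one {n : ℕ} {A : Finset (Cube n)} (hA : IsUpperSet (A : Set (Cube n))) (k j : ℕ)
    (hj : j ≤ k) (hj2 : k ≤ j + 2)
    (L : ℝ) (hL : 1 ≤ L) (f : Cube n → ℝ) (hf : ∀ x, 0 ≤ f x)
    (hsupp : (((A.filter (fun x => f x ≠ 0)).card : ℕ) : ℝ) * lev L k ≤ 2 ^ n) :
    2 ^ (k + 1) / 72 *
        (∑ x ∈ A, nz A j x * (f x) ^ 2 - 1 / L * ∑ x ∈ A, (f x) ^ 2) ≤ energy A f := by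
  have hs : (((A.filter (fun x => f x ≠ 0)).card : ℕ) : ℝ) * lev L j ≤ 2 ^ n :=
    (mul_le_mul_of_nonneg_left (ks_lev_mono L hL hj) (by positivity)).trans hsupp
  have h := keyS hA j L hL f hf hs
  have he := ks_energy_nonneg A f
  set B := ∑ x ∈ A, nz A j x * (f x) ^ 2 - 1 / L * ∑ x ∈ A, (f x) ^ 2 with hB
  rcases le_or_gt 0 B with h0 | h0
  · refine le_trans (mul_le_mul_of_nonneg_right ?_ h0) h
    have h3 : (2 : ℝ) ^ (k + 1) ≤ 2 ^ (j + 2 + 1) := pow_le_pow_right₀ (by norm_num) (by omega)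
    have h4 : (2 : ℝ) ^ (j + 2 + 1) = 4 * 2 ^ (j + 1) := by ring
    rw [h4] at h3
    linarith
  · refine le_trans ?_ he
    exact mul_nonpos_of_nonneg_of_nonpos (by positivity) h0.le

theorem key3 {n : ℕ} {A : Finset (Cube n)} (hA : IsUpperSet (A : Set (Cube n))) (k : ℕ)
    (L : ℝ) (hL : 1 ≤ L) (f : Cube n → ℝ) (hf : ∀ x, 0 ≤ f x)
    (hsupp : (((A.filter (fun x => f x ≠ 0)).card : ℕ) : ℝ) * lev L k ≤ 2 ^ n) :
    2 ^ (k + 1) / 216 *
        (∑ x ∈ A, wz A k x * (f x) ^ 2 - 3 / L * ∑ x ∈ A, (f x) ^ 2) ≤ energy A f := by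
  have h0 := ks_one hA k k le_rfl (by omega) L hL f hf hsupp
  have h1 := ks_one hA k (k - 1) (by omega) (by omega) L hL f hf hsupp
  have h2 := ks_one hA k (k - 2) (by omega) (by omega) L hL f hf hsupp
  have e : ∑ x ∈ A, wz A k x * (f x) ^ 2 = ∑ x ∈ A, nz A k x * (f x) ^ 2 +
      ∑ x ∈ A, nz A (k - 1) x * (f x) ^ 2 + ∑ x ∈ A, nz A (k - 2) x * (f x) ^ 2 := by
    rw [← Finset.sum_add_distrib, ← Finset.sum_add_distrib]
    refine Finset.sum_congr rfl fun x _ => ?_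
    unfold wz
    ring
  rw [e]
  have h3 : (2 : ℝ) ^ (k + 1) / 216 *
      (∑ x ∈ A, nz A k x * (f x) ^ 2 + ∑ x ∈ A, nz A (k - 1) x * (f x) ^ 2 +
        ∑ x ∈ A, nz A (k - 2) x * (f x) ^ 2 - 3 / L * ∑ x ∈ A, (f x) ^ 2) =
      (1 / 3) * (2 ^ (k + 1) / 72 *
        (∑ x ∈ A, nz A k x * (f x) ^ 2 - 1 / L * ∑ x ∈ A, (f x) ^ 2) +
      2 ^ (k + 1) / 72 *
        (∑ x ∈ A, nz A (k - 1) x * (f x) ^ 2 - 1 / L * ∑ x ∈ A, (f x) ^ 2) +
      2 ^ (k + 1) / 72 *
        (∑ x ∈ A, nz A (k - 2) x * (f x) ^ 2 - 1 / L * ∑ x ∈ A, (f x) ^ 2)) := by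
    ring
  rw [h3]
  linarith

end Pool.Agent.Lib.MP_52661b_pr
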