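import Pool.Agent.Lib.MP_52661b_pr.Sh.Poin
import Pool.Agent.Lib.MP_52661b_pr.Contract

set_option autoImplicit false

/-!
# Contraction with the rate `P(A) / (9 n)`, smoothing of the free walk

PROOF of `step_en`: first half of the proof of `ct_one` in `Contract.lean`. `contractS`: `step_en` and `poincare2` for
`R = univ` (as in `Contract.lean`). `smoothS`: `step_en` for the iterates `s ≤ j < 2 s`, telescoping: the sum over these `j` of
`(1 / n) energy` is at most `∑ ((step A)^[s] h - κ) ^ 2`, so one of the `s` terms is at most the mean.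
-/

namespace Pool.Agent.Lib.MP_52661b_pr

open Finset

private lemma smo_eu_sq {n : ℕ} {A : Finset (Cube n)} (hA : IsUpperSet (A : Set (Cube n)))
    (i : Fin n) (h : Cube n → ℝ) (κ : ℝ) :
    ∑ x ∈ A, (eu A i h x - κ) ^ 2 =
      ∑ x ∈ A, (h x - κ) ^ 2 - ∑ x ∈ A, (h x - eu A i h x) ^ 2 := by
  have h1 : ∑ x ∈ A, eu A i h x * eu A i h x = ∑ x ∈ A, h x * eu A i h x := by
    rw [eu_symm hA i h (eu A i h)]
    refine Finset.sum_congr rfl fun x _ => ?_
    rw [eu_idem]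
  have h2 : ∑ x ∈ A, eu A i h x = ∑ x ∈ A, h x := by
    have := eu_symm hA i h (fun _ => 1)
    have h3 : ∀ x : Cube n, eu A i (fun _ => (1 : ℝ)) x = 1 := by
      intro x
      unfold eu
      split_ifs <;> norm_num
    simpa [h3] using this
  have e1 : ∑ x ∈ A, (eu A i h x - κ) ^ 2 = ∑ x ∈ A, eu A i h x * eu A i h x
      - 2 * κ * ∑ x ∈ A, eu A i h x + ∑ x ∈ A, κ ^ 2 := by
    rw [Finset.mul_sum, ← Finset.sum_sub_distrib, ← Finset.sum_add_distrib]
    exact Finset.sum_congr rfl fun x _ => by ring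
  have e2 : ∑ x ∈ A, (h x - κ) ^ 2 = ∑ x ∈ A, h x * h x
      - 2 * κ * ∑ x ∈ A, h x + ∑ x ∈ A, κ ^ 2 := by
    rw [Finset.mul_sum, ← Finset.sum_sub_distrib, ← Finset.sum_add_distrib]
    exact Finset.sum_congr rfl fun x _ => by ring
  have e3 : ∑ x ∈ A, (h x - eu A i h x) ^ 2 = ∑ x ∈ A, h x * h x
      - 2 * ∑ x ∈ A, h x * eu A i h x + ∑ x ∈ A, eu A i h x * eu A i h x := by
    rw [Finset.mul_sum, ← Finset.sum_sub_distrib, ← Finset.sum_add_distrib]
    exact Finset.sum_congr rfl fun x _ => by ring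
  rw [e1, e2, e3, h1, h2]
  ring

theorem step_en {n : ℕ} (hn : 0 < n) {A : Finset (Cube n)} (hA : IsUpperSet (A : Set (Cube n)))
    (h : Cube n → ℝ) (κ : ℝ) :
    ∑ x ∈ A, (step A h x - κ) ^ 2 ≤ ∑ x ∈ A, (h x - κ) ^ 2 - (1 / (n : ℝ)) * energy A h := by
  have hn' : (0 : ℝ) < n := by exact_mod_cast hn
  -- Jensen
  have h1 : ∀ x ∈ A, (step A h x - κ) ^ 2 ≤ (1 / (n : ℝ)) * ∑ i : Fin n, (eu A i h x - κ) ^ 2 := by
    intro x _
    have h2 : step A h x - κ = (1 / (n : ℝ)) * ∑ i : Fin n, (eu A i h x - κ) := by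
      unfold step
      rw [Finset.sum_sub_distrib, Finset.sum_const, Finset.card_univ, Fintype.card_fin,
        nsmul_eq_mul]
      field_simp
    have h3 := sq_sum_le_card_mul_sum_sq (s := (Finset.univ : Finset (Fin n)))
      (f := fun i => eu A i h x - κ)
    rw [Finset.card_univ, Fintype.card_fin] at h3
    rw [h2, mul_pow]
    calc (1 / (n : ℝ)) ^ 2 * (∑ i : Fin n, (eu A i h x - κ)) ^ 2
        ≤ (1 / (n : ℝ)) ^ 2 * (n * ∑ i : Fin n, (eu A i h x - κ) ^ 2) :=
          mul_le_mul_of_nonneg_left h3 (by positivity)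
      _ = (1 / (n : ℝ)) * ∑ i : Fin n, (eu A i h x - κ) ^ 2 := by
          field_simp
  calc ∑ x ∈ A, (step A h x - κ) ^ 2
      ≤ ∑ x ∈ A, (1 / (n : ℝ)) * ∑ i : Fin n, (eu A i h x - κ) ^ 2 := Finset.sum_le_sum h1
    _ = (1 / (n : ℝ)) * ∑ i : Fin n, ∑ x ∈ A, (eu A i h x - κ) ^ 2 := by
        rw [← Finset.mul_sum, Finset.sum_comm]
    _ = (1 / (n : ℝ)) * ∑ i : Fin n, (∑ x ∈ A, (h x - κ) ^ 2 -
          ∑ x ∈ A, (h x - eu A i h x) ^ 2) := by
        congr 1
        exact Finset.sum_congr rfl fun i _ => smo_eu_sq hA i h κ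
    _ = _ := by
        rw [Finset.sum_sub_distrib, Finset.sum_const, Finset.card_univ, Fintype.card_fin,
          nsmul_eq_mul]
        unfold energy
        field_simp

private lemma smo_one {n : ℕ} (hn : 0 < n) {A : Finset (Cube n)}
    (hA : IsUpperSet (A : Set (Cube n)))
    (hne : A.Nonempty) (h : Cube n → ℝ) (κ : ℝ) (hκ : ∑ x ∈ A, h x = κ * (A.card : ℝ)) :
    ∑ x ∈ A, (step A h x - κ) ^ 2 ≤
      (1 - cubeMeasure A / (9 * n)) * ∑ x ∈ A, (h x - κ) ^ 2 := by
  have hn' : (0 : ℝ) < n := by exact_mod_cast hn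
  have hc : (0 : ℝ) < A.card := by exact_mod_cast hne.card_pos
  have h4 := step_en hn hA h κ
  have hfib : ∀ x : Cube n, fib A Finset.univ x = A := by
    intro x
    unfold fib
    apply Finset.filter_true_of_mem
    intro y _ j hj
    exact absurd (Finset.mem_univ j) hj
  obtain ⟨x0, hx0⟩ := hne
  have h5 := poincare2 hA h Finset.univ x0
  have hd : dens A Finset.univ x0 = cubeMeasure A := by
    unfold dens cubeMeasure
    rw [hfib, Finset.card_univ, Fintype.card_fin]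
  rw [hfib, hd] at h5
  have h6 : ∑ y ∈ A, h y ^ 2 - (∑ y ∈ A, h y) ^ 2 / (A.card : ℝ) = ∑ x ∈ A, (h x - κ) ^ 2 := by
    have e2 : ∑ x ∈ A, (h x - κ) ^ 2 = ∑ x ∈ A, h x ^ 2
        - 2 * κ * ∑ x ∈ A, h x + ∑ x ∈ A, κ ^ 2 := by
      rw [Finset.mul_sum, ← Finset.sum_sub_distrib, ← Finset.sum_add_distrib]
      exact Finset.sum_congr rfl fun x _ => by ring
    rw [e2, hκ, Finset.sum_const, nsmul_eq_mul]
    field_simp
    ring
  rw [h6] at h5
  have h8 : ∑ i : Fin n, ∑ y ∈ A, (h y - eu A i h y) ^ 2 = energy A h := rfl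
  rw [h8] at h5
  have h9 : (1 / (n : ℝ)) * (cubeMeasure A / 9 * ∑ x ∈ A, (h x - κ) ^ 2) ≤
      (1 / (n : ℝ)) * energy A h := mul_le_mul_of_nonneg_left (by linarith) (by positivity)
  have h10 : (1 - cubeMeasure A / (9 * n)) * ∑ x ∈ A, (h x - κ) ^ 2 =
      ∑ x ∈ A, (h x - κ) ^ 2 - (1 / (n : ℝ)) * (cubeMeasure A / 9 *
        ∑ x ∈ A, (h x - κ) ^ 2) := by
    field_simp
  rw [h10]
  linarith

theorem contractS {n : ℕ} (hn : 0 < n) {A : Finset (Cube n)} (hA : IsUpperSet (A : Set (Cube n)))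
    (hne : A.Nonempty) (h : Cube n → ℝ) (κ : ℝ) (hκ : ∑ x ∈ A, h x = κ * (A.card : ℝ)) (s : ℕ) :
    ∑ x ∈ A, ((step A)^[s] h x - κ) ^ 2 ≤
      (1 - cubeMeasure A / (9 * n)) ^ s * ∑ x ∈ A, (h x - κ) ^ 2 := by
  have hn' : (1 : ℝ) ≤ n := by exact_mod_cast hn
  have hα1 : cubeMeasure A ≤ 1 := by
    unfold cubeMeasure
    rw [div_le_one (by positivity)]
    have h1 : A.card ≤ Fintype.card (Cube n) := Finset.card_le_univ A
    have h2 : Fintype.card (Cube n) = 2 ^ n := by simp [Cube]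
    rw [h2] at h1
    exact_mod_cast h1
  have hr : 0 ≤ 1 - cubeMeasure A / (9 * n) := by
    have h2 : cubeMeasure A / (9 * n) ≤ 1 := by
      rw [div_le_one (by positivity)]
      linarith
    linarith
  have hsum : ∀ s : ℕ, ∑ x ∈ A, (step A)^[s] h x = κ * (A.card : ℝ) := by
    intro s
    induction s with
    | zero => simpa using hκ
    | succ s ih =>
      rw [Function.iterate_succ_apply', step_sum hn hA, ih]
  induction s with
  | zero => simp
  | succ s ih =>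
    rw [Function.iterate_succ_apply']
    refine (smo_one hn hA hne _ κ (hsum s)).trans ?_
    rw [pow_succ' (1 - cubeMeasure A / (9 * (n : ℝ))) s, mul_assoc]
    exact mul_le_mul_of_nonneg_left ih hr

theorem smoothS {n : ℕ} (hn : 0 < n) {A : Finset (Cube n)} (hA : IsUpperSet (A : Set (Cube n)))
    (h : Cube n → ℝ) (κ : ℝ) (s : ℕ) (hs : 0 < s) :
    ∃ j, s ≤ j ∧ j < 2 * s ∧ energy A ((step A)^[j] h) ≤
      (n / (s : ℝ)) * ∑ x ∈ A, ((step A)^[s] h x - κ) ^ 2 := by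
  have hn' : (0 : ℝ) < n := by exact_mod_cast hn
  have hs' : (0 : ℝ) < s := by exact_mod_cast hs
  set a : ℝ := ∑ x ∈ A, ((step A)^[s] h x - κ) ^ 2 with ha
  by_contra hcon
  push Not at hcon
  have htel : ∀ m : ℕ, ∑ x ∈ A, ((step A)^[s + m] h x - κ) ^ 2 ≤
      a - ∑ l ∈ range m, (1 / (n : ℝ)) * energy A ((step A)^[s + l] h) := by
    intro m
    induction m with
    | zero => simp [ha]
    | succ m ih =>
      rw [Finset.sum_range_succ, ← add_assoc s m 1, Function.iterate_succ_apply']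
      have h1 := step_en hn hA ((step A)^[s + m] h) κ
      linarith
  have h2 := htel s
  have h3 : 0 ≤ ∑ x ∈ A, ((step A)^[s + s] h x - κ) ^ 2 :=
    Finset.sum_nonneg fun x _ => sq_nonneg _
  have h4 : ∑ l ∈ range s, a / s < ∑ l ∈ range s, (1 / (n : ℝ)) * energy A ((step A)^[s + l] h) := by
    refine Finset.sum_lt_sum_of_nonempty ⟨0, Finset.mem_range.2 hs⟩ fun l hl => ?_
    have h5 := hcon (s + l) (by omega) (by
      have := Finset.mem_range.1 hl
      omega)
    have h6 : (1 / (n : ℝ)) * ((n / (s : ℝ)) * a) <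
        (1 / (n : ℝ)) * energy A ((step A)^[s + l] h) :=
      mul_lt_mul_of_pos_left h5 (by positivity)
    have h7 : (1 / (n : ℝ)) * ((n / (s : ℝ)) * a) = a / s := by
      field_simp
    rw [h7] at h6
    exact h6
  rw [Finset.sum_const, Finset.card_range, nsmul_eq_mul, mul_div_cancel₀ _ hs'.ne'] at h4
  linarith

end Pool.Agent.Lib.MP_52661b_pr
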