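import Pool.Agent.Lib.MP_52661b_pr.Sh.Com
import Pool.Agent.Lib.MP_52661b_pr.Sh.Smo
import Pool.Agent.Lib.MP_52661b_pr.Sh.Key
import Pool.Agent.Lib.MP_52661b_pr.BurnIn

set_option autoImplicit false

/-!
# The good set

PROOF. `α = cubeMeasure A`, `h_j = (step univ)^[j] (ind A)`, mean `α`. `smoothS` for `A = univ`, `κ = α` gives `j`. By
`contractS` for `univ` (`cubeMeasure univ = 1`), `V = ∑ (h_j - α) ^ 2 ≤ (1 - 1 / (9 n)) ^ s α 2 ^ n` (also for `j ≥ s`), as
`∑ (ind A - α) ^ 2 = α (1 - α) 2 ^ n`, and `energy univ h_j ≤ (n / s) (1 - 1 / (9 n)) ^ s α 2 ^ n`, `n ≤ s`.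
`G = {x | ∀ k < K, α / 2 ≤ (step univ)^[j] (nz A k) x}` is an upper set (`nz_mono`; iterates of the free step keep
monotone functions monotone: `iter_univ_mono` in `BurnIn.lean`, private, copy it). `(step univ)^[j] (nz A k) = noise (1 - 1 / 2 ^ k) h_j`
(`noise_step`). If `x ∉ G` then `|h_j x - α| ≥ α / 4` (at most `16 V / α ^ 2` points) or for a `k < K`
`|noise h_j x - h_j x| ≥ α / 4` (at most `16 / α ^ 2 * 9 / 2 ^ k * energy` points, `noise_var`); `∑ k, 1 / 2 ^ k ≤ 2`. Total at most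
`(16 + 288) / α ^ 2 * (1 - 1 / (9 n)) ^ s α 2 ^ n`.
-/

namespace Pool.Agent.Lib.MP_52661b_pr

open Finset

private theorem go_update_mono {n : ℕ} {x y : Cube n} (h : x ≤ y) (i : Fin n) (b : Bool) :
    Function.update x i b ≤ Function.update y i b := by
  intro j
  by_cases hj : j = i
  · subst hj; simp
  · simp only [Function.update_of_ne hj]
    exact h j

private theorem go_step_mono {n : ℕ} {h : Cube n → ℝ} (hm : Monotone h) :
    Monotone (step univ h) := by
  intro x y hxy
  unfold step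
  apply mul_le_mul_of_nonneg_left _ (by positivity)
  refine Finset.sum_le_sum fun i _ => ?_
  unfold eu
  rw [if_pos (mem_univ _), if_pos (mem_univ _)]
  have h1 := hm (go_update_mono hxy i false)
  have h2 := hm (go_update_mono hxy i true)
  linarith

private theorem go_iter_mono {n : ℕ} {h : Cube n → ℝ} (hm : Monotone h) (t : ℕ) :
    Monotone ((step univ)^[t] h) := by
  induction t with
  | zero => exact hm
  | succ t ih =>
    rw [Function.iterate_succ_apply']
    exact go_step_mono ih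

private theorem go_geom (K : ℕ) : ∑ k ∈ range K, (1 / 2 ^ k : ℝ) ≤ 2 := by
  have h : ∑ k ∈ range K, (1 / 2 ^ k : ℝ) = 2 - 2 / 2 ^ K := by
    induction K with
    | zero => norm_num
    | succ K ih =>
      rw [sum_range_succ, ih, pow_succ]
      field_simp
      ring
  rw [h]
  have : (0 : ℝ) ≤ 2 / 2 ^ K := by positivity
  linarith

private theorem go_var {n : ℕ} (A : Finset (Cube n)) :
    ∑ x : Cube n, (ind A x - cubeMeasure A) ^ 2 ≤ cubeMeasure A * 2 ^ n := by
  have hc : ((univ : Finset (Cube n)).card : ℝ) = 2 ^ n := by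
    rw [card_univ]
    simp
  have h1 : ∀ x : Cube n, (ind A x - cubeMeasure A) ^ 2 =
      (1 - 2 * cubeMeasure A) * ind A x + cubeMeasure A ^ 2 := by
    intro x
    unfold ind
    split_ifs <;> ring
  have h2 : ∑ x : Cube n, ind A x = (A.card : ℝ) := by
    unfold ind
    simp
  have h3 : (A.card : ℝ) = cubeMeasure A * 2 ^ n := by
    rw [cubeMeasure]
    field_simp
  rw [sum_congr rfl fun x _ => h1 x, sum_add_distrib, ← mul_sum, h2, h3, sum_const,
    nsmul_eq_mul, hc]
  have h4 : (0 : ℝ) ≤ cubeMeasure A ^ 2 * 2 ^ n := by positivity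
  nlinarith

theorem goodS {n : ℕ} (hn : 0 < n) {A : Finset (Cube n)} (hA : IsUpperSet (A : Set (Cube n)))
    (hne : A.Nonempty) (K s : ℕ) (hs : n ≤ s) :
    ∃ (j : ℕ) (G : Finset (Cube n)), s ≤ j ∧ j < 2 * s ∧ IsUpperSet (G : Set (Cube n)) ∧
      (∀ x ∈ G, ∀ k < K, cubeMeasure A / 2 ≤ (step univ)^[j] (nz A k) x) ∧
      (1 - 304 / cubeMeasure A * (1 - 1 / (9 * (n : ℝ))) ^ s) * 2 ^ n ≤ (G.card : ℝ) := by
  classical
  have hn1 : (1 : ℝ) ≤ (n : ℝ) := by exact_mod_cast hn
  have hs0 : 0 < s := lt_of_lt_of_le hn hs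
  have hs1 : (0 : ℝ) < (s : ℝ) := by exact_mod_cast hs0
  have hcard : ((univ : Finset (Cube n)).card : ℝ) = 2 ^ n := by
    rw [card_univ]
    simp
  have hun : cubeMeasure (univ : Finset (Cube n)) = 1 := by
    rw [cubeMeasure, hcard]
    exact div_self (by positivity)
  have hup : IsUpperSet ((univ : Finset (Cube n)) : Set (Cube n)) := by
    rw [coe_univ]
    exact isUpperSet_univ
  set α : ℝ := cubeMeasure A with hα
  have hα0 : 0 < α := by
    rw [hα, cubeMeasure]
    have : (0 : ℝ) < (A.card : ℝ) := by exact_mod_cast hne.card_pos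
    positivity
  have hmean : ∑ x ∈ (univ : Finset (Cube n)), ind A x = α * ((univ : Finset (Cube n)).card : ℝ) := by
    have h2 : ∑ x : Cube n, ind A x = (A.card : ℝ) := by
      unfold ind
      simp
    rw [h2, hcard, hα, cubeMeasure]
    field_simp
  obtain ⟨j, hj1, hj2, hj3⟩ := smoothS hn hup (ind A) α s hs0
  set ρ : ℝ := 1 - 1 / (9 * (n : ℝ)) with hρ
  have hρ0 : 0 ≤ ρ := by
    rw [hρ, sub_nonneg, div_le_one (by positivity)]
    linarith
  have hρ1 : ρ ≤ 1 := by
    rw [hρ]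
    have : (0 : ℝ) ≤ 1 / (9 * (n : ℝ)) := by positivity
    linarith
  have hct : ∀ t, ∑ x : Cube n, ((step univ)^[t] (ind A) x - α) ^ 2 ≤
      ρ ^ t * (α * 2 ^ n) := by
    intro t
    have h1 := contractS hn hup univ_nonempty (ind A) α hmean t
    rw [hun, ← hρ] at h1
    exact h1.trans (mul_le_mul_of_nonneg_left (go_var A) (pow_nonneg hρ0 t))
  set h : Cube n → ℝ := (step univ)^[j] (ind A) with hh
  have hV : ∑ x : Cube n, (h x - α) ^ 2 ≤ ρ ^ s * (α * 2 ^ n) := by
    refine (hct j).trans (mul_le_mul_of_nonneg_right ?_ (by positivity))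
    exact pow_le_pow_of_le_one hρ0 hρ1 hj1
  have hE : energy univ h ≤ ρ ^ s * (α * 2 ^ n) := by
    refine hj3.trans ?_
    have h1 : (n : ℝ) / s ≤ 1 := by
      rw [div_le_one hs1]
      exact_mod_cast hs
    have h2 := hct s
    have h3 : 0 ≤ ∑ x : Cube n, ((step univ)^[s] (ind A) x - α) ^ 2 :=
      sum_nonneg fun x _ => sq_nonneg _
    calc (n : ℝ) / s * ∑ x : Cube n, ((step univ)^[s] (ind A) x - α) ^ 2
        ≤ 1 * ∑ x : Cube n, ((step univ)^[s] (ind A) x - α) ^ 2 :=
          mul_le_mul_of_nonneg_right h1 h3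
      _ ≤ ρ ^ s * (α * 2 ^ n) := by rw [one_mul]; exact h2
  have hE0 : 0 ≤ energy univ h := by
    unfold energy
    exact sum_nonneg fun i _ => sum_nonneg fun x _ => sq_nonneg _
  have hnz : ∀ k x, (step univ)^[j] (nz A k) x = noise (1 - 1 / 2 ^ k) h x := by
    intro k x
    exact noise_step (1 - 1 / 2 ^ k) (ind A) j x
  set P : Cube n → Prop := fun x => ∀ k < K, α / 2 ≤ (step univ)^[j] (nz A k) x with hP
  refine ⟨j, univ.filter P, hj1, hj2, ?_, fun x hx => (mem_filter.mp hx).2, ?_⟩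
  · intro x y hxy hx
    have hx' : P x := by
      have : x ∈ univ.filter P := by exact_mod_cast hx
      exact (mem_filter.mp this).2
    have hy : P y := fun k hk => (hx' k hk).trans (go_iter_mono (nz_mono hA k) j hxy)
    have : y ∈ univ.filter P := mem_filter.mpr ⟨mem_univ _, hy⟩
    exact_mod_cast this
  · have hbad : ∀ x ∈ univ.filter (fun x => ¬ P x), α ^ 2 / 16 ≤
        (h x - α) ^ 2 + ∑ k ∈ range K, (noise (1 - 1 / 2 ^ k) h x - h x) ^ 2 := by
      intro x hx
      have hx' := (mem_filter.mp hx).2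
      rw [hP] at hx'
      push Not at hx'
      obtain ⟨k, hk, hlt⟩ := hx'
      rw [hnz k x] at hlt
      have h1 : (noise (1 - 1 / 2 ^ k) h x - h x) ^ 2 ≤
          ∑ k ∈ range K, (noise (1 - 1 / 2 ^ k) h x - h x) ^ 2 :=
        single_le_sum (f := fun k => (noise (1 - 1 / 2 ^ k) h x - h x) ^ 2)
          (fun k _ => sq_nonneg _) (mem_range.2 hk)
      rcases le_or_gt (h x - α) (-(α / 4)) with h2 | h2
      · have h3 : α ^ 2 / 16 ≤ (h x - α) ^ 2 := by nlinarith
        have h4 : 0 ≤ ∑ k ∈ range K, (noise (1 - 1 / 2 ^ k) h x - h x) ^ 2 :=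
          sum_nonneg fun k _ => sq_nonneg _
        linarith
      · have h5 : noise (1 - 1 / 2 ^ k) h x - h x ≤ -(α / 4) := by linarith
        have h3 : α ^ 2 / 16 ≤ (noise (1 - 1 / 2 ^ k) h x - h x) ^ 2 := by nlinarith
        have h4 := sq_nonneg (h x - α)
        linarith
    have hsum : ((univ.filter (fun x => ¬ P x)).card : ℝ) * (α ^ 2 / 16) ≤
        19 * (ρ ^ s * (α * 2 ^ n)) := by
      calc ((univ.filter (fun x => ¬ P x)).card : ℝ) * (α ^ 2 / 16)
          = ∑ x ∈ univ.filter (fun x => ¬ P x), α ^ 2 / 16 := by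
            rw [sum_const, nsmul_eq_mul]
        _ ≤ ∑ x ∈ univ.filter (fun x => ¬ P x), ((h x - α) ^ 2 +
            ∑ k ∈ range K, (noise (1 - 1 / 2 ^ k) h x - h x) ^ 2) := sum_le_sum hbad
        _ ≤ ∑ x : Cube n, ((h x - α) ^ 2 +
            ∑ k ∈ range K, (noise (1 - 1 / 2 ^ k) h x - h x) ^ 2) := by
            refine sum_le_sum_of_subset_of_nonneg (filter_subset _ _) fun x _ _ => ?_
            exact add_nonneg (sq_nonneg _) (sum_nonneg fun k _ => sq_nonneg _)
        _ = ∑ x : Cube n, (h x - α) ^ 2 +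
            ∑ k ∈ range K, ∑ x : Cube n, (noise (1 - 1 / 2 ^ k) h x - h x) ^ 2 := by
            rw [sum_add_distrib, sum_comm (s := univ)]
        _ ≤ ρ ^ s * (α * 2 ^ n) + ∑ k ∈ range K, 9 / 2 ^ k * energy univ h :=
            add_le_add hV (sum_le_sum fun k _ => noise_var k h)
        _ = ρ ^ s * (α * 2 ^ n) + 9 * (∑ k ∈ range K, (1 / 2 ^ k : ℝ)) * energy univ h := by
            rw [mul_sum, sum_mul]
            congr 1
            exact sum_congr rfl fun k _ => by ring
        _ ≤ ρ ^ s * (α * 2 ^ n) + 9 * 2 * (ρ ^ s * (α * 2 ^ n)) := by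
            refine add_le_add le_rfl ?_
            refine mul_le_mul (mul_le_mul_of_nonneg_left (go_geom K) (by norm_num)) hE hE0
              (by norm_num)
        _ = 19 * (ρ ^ s * (α * 2 ^ n)) := by ring
    have hcd : ((univ.filter P).card : ℝ) + ((univ.filter (fun x => ¬ P x)).card : ℝ) = 2 ^ n := by
      rw [← hcard]
      exact_mod_cast card_filter_add_card_filter_not (s := (univ : Finset (Cube n))) P
    have hb : ((univ.filter (fun x => ¬ P x)).card : ℝ) ≤ 304 / α * ρ ^ s * 2 ^ n := by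
      have h1 : 304 / α * ρ ^ s * 2 ^ n = 19 * (ρ ^ s * (α * 2 ^ n)) / (α ^ 2 / 16) := by
        field_simp
        ring
      rw [h1, le_div_iff₀ (by positivity)]
      exact hsum
    rw [sub_mul, one_mul]
    linarith

end Pool.Agent.Lib.MP_52661b_pr
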