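import Pool.Agent.Lib.MP_52661b_pr.Sh.Win
import Pool.Agent.Lib.MP_52661b_pr.Sh.Goo
import Pool.Agent.Lib.MP_52661b_pr.FinalA

set_option autoImplicit false

/-!
# There is a time at which most of the mass has low density

PROOF. `f_t = den A x0 t`; `goodS` gives `j < 2 s` and `G`. Suppose the contrary. For `t1 ≤ t < t1 + m`: the mass of
`{4 lev_1 ≤ f_t} = {2 ≤ lvl f_t}` (`lvl_iff`, `1 < K`) is more than `A.card / 8`; the mass outside `G` is at most
`A.card (1 / 64 + 1 / 64)` (`den_good`, `den_sum`), so the left side of `windowS` (`a = α / 2`, `s = j`) is at least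
`(3 α / 64) A.card`, and `49 / L = α / 64`. So `(α / 32) A.card ≤ 3456 n (p (t + j) - p (t + j + 1)) + (p t - p (t + j)) / log L`,
`p t = pot A L K f_t`, nonincreasing (`phi_step` or `descentS`-free: `dropS` with `s = 1`), `0 ≤ p t ≤ 2 K log L A.card`
(`pot_nonneg`, `pot_le`). Sum over `t`: `m (α / 32) ≤ 3456 n * 2 K log L + j * 2 K`.
-/

namespace Pool.Agent.Lib.MP_52661b_pr

open Finset

private theorem low_add {n : ℕ} (A : Finset (Cube n)) (x0 : Cube n) (t s : ℕ) :
    den A x0 (t + s) = (step A)^[s] (den A x0 t) := by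
  unfold den
  rw [add_comm t s, Function.iterate_add_apply]

theorem lowS {n : ℕ} (hn : 0 < n) {A : Finset (Cube n)} (hA : IsUpperSet (A : Set (Cube n)))
    (x0 : Cube n) (hx0 : x0 ∈ A) (α : ℝ) (hα : α = cubeMeasure A) (L : ℝ) (hL : L = 3136 / α)
    (K : ℕ) (hK : 2 ≤ K) (hK2 : (2 : ℝ) ^ n ≤ lev L K)
    (s : ℕ) (hs : n ≤ s) (hs2 : 304 / α * (1 - 1 / (9 * (n : ℝ))) ^ s ≤ 1 / 64)
    (t1 : ℕ) (ht1 : ∀ t, t1 ≤ t → n * (1 - 1 / (n : ℝ)) ^ t ≤ 1 / 64)
    (m : ℕ) (hm : 64 * (K : ℝ) / α * (3456 * n * Real.log L + 2 * s) < m) :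
    ∃ t, t1 ≤ t ∧ t < t1 + m ∧ 7 / 8 * (A.card : ℝ) ≤
      ∑ x ∈ A.filter (fun x => den A x0 t x < 4 * lev L 1), den A x0 t x := by
  have hcard : 0 < (A.card : ℝ) := by
    exact_mod_cast Finset.card_pos.mpr ⟨x0, hx0⟩
  have hn' : (0 : ℝ) < n := by exact_mod_cast hn
  have hα0 : 0 < α := by rw [hα]; unfold cubeMeasure; positivity
  have hcle : (A.card : ℝ) ≤ 2 ^ n := by
    have := Finset.card_le_univ A
    have h3 : A.card ≤ 2 ^ n := by simpa using this
    exact_mod_cast h3
  have hα1 : α ≤ 1 := by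
    rw [hα]; unfold cubeMeasure
    rw [div_le_one (by positivity)]
    exact hcle
  have hL3 : 3 ≤ L := by
    rw [hL, le_div_iff₀ hα0]
    nlinarith
  have hL1 : 1 ≤ L := by linarith
  have hlogL : 0 < Real.log L := Real.log_pos (by linarith)
  obtain ⟨j, G, hsj, hj2, hGu, hG, hGc⟩ := goodS hn hA ⟨x0, hx0⟩ K s hs
  rw [← hα] at hG hGc
  have hGm : 63 / 64 ≤ (G.card : ℝ) / 2 ^ n := by
    rw [le_div_iff₀ (by positivity)]
    have h2n : (0 : ℝ) < 2 ^ n := by positivity
    nlinarith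
  by_contra hcon
  push Not at hcon
  set p : ℕ → ℝ := fun t => pot A L K (den A x0 t) with hp
  have hp0 : ∀ t, 0 ≤ p t := fun t => pot_nonneg A L hL1 K _ (den_nonneg A x0 t)
  have hp1 : ∀ t, p t ≤ 2 * K * Real.log L * (A.card : ℝ) := fun t =>
    pot_le A L hL1 K _ (den_nonneg A x0 t) (den_sum hn hA x0 hx0 t)
  have hdec : ∀ t, t1 ≤ t → t < t1 + m →
      α / 32 * (A.card : ℝ) ≤ 3456 * n * (p (t + j) - p (t + j + 1)) +
        (p t - p (t + j)) / Real.log L := by
    intro t h1 h2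
    have hw := windowS hn hA hL3 K j G (α / 2) (by positivity) hG (den A x0 t)
      (den_nonneg A x0 t) (den_sum hn hA x0 hx0 t)
      (fun x hx => by
        rw [← low_add]
        exact le_trans (den_le hn hA x0 hx0 (t + j) x hx) hK2)
    rw [← low_add, ← low_add] at hw
    have hc := hcon t h1 h2
    have hg := den_good hn hA G hGu t x0 hx0
    have hb := ht1 t h1
    have hg2 : (A.card : ℝ) * (62 / 64) ≤ ∑ x ∈ A.filter (fun x => x ∈ G), den A x0 t x := by
      refine le_trans (mul_le_mul_of_nonneg_left ?_ hcard.le) hg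
      linarith
    have hsplit : ∑ x ∈ A.filter (fun x => x ∈ G), den A x0 t x ≤
        ∑ x ∈ A.filter (fun x => x ∈ G ∧ 2 ≤ lvl L K (den A x0 t x)), den A x0 t x +
        ∑ x ∈ A.filter (fun x => den A x0 t x < 4 * lev L 1), den A x0 t x := by
      rw [Finset.sum_filter, Finset.sum_filter, Finset.sum_filter, ← Finset.sum_add_distrib]
      apply Finset.sum_le_sum
      intro x _
      have h0 := den_nonneg A x0 t x
      have hiff := lvl_iff (L := L) (by linarith) (K := K) (k := 1) (by omega) (den A x0 t x)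
      by_cases hxG : x ∈ G
      · by_cases hx4 : 4 * lev L 1 ≤ den A x0 t x
        · have h5 : 2 ≤ lvl L K (den A x0 t x) := hiff.2 hx4
          rw [if_pos hxG, if_pos ⟨hxG, h5⟩, if_neg (not_lt.mpr hx4)]; linarith
        · have h5 : ¬ 2 ≤ lvl L K (den A x0 t x) := fun h => hx4 (hiff.1 h)
          rw [if_pos hxG, if_neg (fun h => h5 h.2), if_pos (not_le.mp hx4)]; linarith
      · rw [if_neg hxG, if_neg (fun h => hxG h.1)]
        split_ifs <;> linarith
    set S := ∑ x ∈ A.filter (fun x => x ∈ G ∧ 2 ≤ lvl L K (den A x0 t x)), den A x0 t x with hS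
    have hS2 : 3 / 32 * (A.card : ℝ) ≤ S := by linarith
    have hS3 : α / 2 * (3 / 32 * (A.card : ℝ)) ≤ α / 2 * S :=
      mul_le_mul_of_nonneg_left hS2 (by positivity)
    have hqL : 49 / L = α / 64 := by
      rw [hL, div_div_eq_mul_div]
      ring
    rw [hqL] at hw
    have e1 : t + (j + 1) = t + j + 1 := by ring
    rw [e1] at hw
    change α / 2 * S ≤ 3456 * n * (p (t + j) - p (t + j + 1)) +
        (p t - p (t + j)) / Real.log L + α / 64 * (A.card : ℝ) at hw
    have e2 : α / 2 * (3 / 32 * (A.card : ℝ)) = α / 32 * (A.card : ℝ) + α / 64 * (A.card : ℝ) := by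
      ring
    linarith
  set Q : ℕ → ℝ := fun t => 3456 * n * p (t + j) + (∑ i ∈ range j, p (t + i)) / Real.log L with hQ
  have hQs : ∀ t, Q t - Q (t + 1) = 3456 * n * (p (t + j) - p (t + j + 1)) +
      (p t - p (t + j)) / Real.log L := by
    intro t
    have h1 : ∑ i ∈ range j, p (t + 1 + i) = ∑ i ∈ range j, p (t + i) + p (t + j) - p t := by
      have h2 := Finset.sum_range_succ (fun i => p (t + i)) j
      have h3 := Finset.sum_range_succ' (fun i => p (t + i)) j
      have h4 : ∑ i ∈ range j, p (t + (i + 1)) = ∑ i ∈ range j, p (t + 1 + i) :=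
        Finset.sum_congr rfl fun i _ => congrArg p (by omega)
      rw [h4, add_zero] at h3
      linarith
    have h2 : t + 1 + j = t + j + 1 := by ring
    change 3456 * n * p (t + j) + (∑ i ∈ range j, p (t + i)) / Real.log L -
      (3456 * n * p (t + 1 + j) + (∑ i ∈ range j, p (t + 1 + i)) / Real.log L) = _
    rw [h1, h2]
    ring
  have hit : ∀ i, i ≤ m → Q (t1 + i) ≤ Q t1 - i * (α / 32 * (A.card : ℝ)) := by
    intro i
    induction i with
    | zero => intro _; simp
    | succ i ih =>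
      intro hi
      have h1 := ih (by omega)
      have h2 := hdec (t1 + i) (by omega) (by omega)
      rw [← hQs] at h2
      have h3 : t1 + (i + 1) = t1 + i + 1 := by ring
      rw [h3]
      push_cast
      linarith
  have h1 := hit m le_rfl
  have h2 : 0 ≤ Q (t1 + m) := by
    change 0 ≤ 3456 * n * p (t1 + m + j) + (∑ i ∈ range j, p (t1 + m + i)) / Real.log L
    have h3 : 0 ≤ ∑ i ∈ range j, p (t1 + m + i) := Finset.sum_nonneg fun i _ => hp0 _
    have h4 := hp0 (t1 + m + j)
    positivity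
  have h3 : Q t1 ≤ (3456 * n * Real.log L + j) * (2 * K * (A.card : ℝ)) := by
    have h4 : ∑ i ∈ range j, p (t1 + i) ≤ j * (2 * K * Real.log L * (A.card : ℝ)) := by
      refine le_trans (Finset.sum_le_sum fun i _ => hp1 (t1 + i)) ?_
      rw [Finset.sum_const, Finset.card_range, nsmul_eq_mul]
    have h5 : (∑ i ∈ range j, p (t1 + i)) / Real.log L ≤ j * (2 * K * (A.card : ℝ)) := by
      rw [div_le_iff₀ hlogL]
      linarith
    have h6 : 3456 * n * p (t1 + j) ≤ 3456 * n * (2 * K * Real.log L * (A.card : ℝ)) :=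
      mul_le_mul_of_nonneg_left (hp1 _) (by positivity)
    change 3456 * n * p (t1 + j) + (∑ i ∈ range j, p (t1 + i)) / Real.log L ≤ _
    linarith
  have h4 : (m : ℝ) * (α / 32 * (A.card : ℝ)) ≤
      (3456 * n * Real.log L + j) * (2 * K * (A.card : ℝ)) := by linarith
  have h5 : (m : ℝ) * (α / 32) ≤ (3456 * n * Real.log L + j) * (2 * K) := by
    have : (m : ℝ) * (α / 32) * (A.card : ℝ) ≤
        (3456 * n * Real.log L + j) * (2 * K) * (A.card : ℝ) := by linarith
    exact le_of_mul_le_mul_right this hcard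
  have hj : (j : ℝ) ≤ 2 * s := by exact_mod_cast hj2.le
  have hK0 : (0 : ℝ) ≤ 2 * K := by positivity
  have h6 : (m : ℝ) * (α / 32) ≤ (3456 * n * Real.log L + 2 * s) * (2 * K) :=
    h5.trans (mul_le_mul_of_nonneg_right (by linarith) hK0)
  have h7 : (m : ℝ) ≤ 64 * (K : ℝ) / α * (3456 * n * Real.log L + 2 * s) := by
    rw [div_mul_eq_mul_div, le_div_iff₀ hα0]
    linarith
  linarith

end Pool.Agent.Lib.MP_52661b_pr
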