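import Pool.Agent.Lib.MP_52661b_pr.Sh.Dfs

set_option autoImplicit false

/-!
# Levels

`lev L` is increasing (`lev L (k + 1) = lev L k ^ 2 ≥ 9 ^ 2 lev L k`..), so `{k < K | 4 lev L k ≤ u}` is an initial segment.
PROOF of `lvl_rt`: `4 lev_j ≤ u` and `u < 4 lev_(j+1)` or `u ≤ lev L K = lev_(j+1)`; then as in `LevelsLower.lean`: if
`u ≤ lev_(j+1)` then `√u - √lev_j ≥ √u / 2`; otherwise `lev_(j+1) = lev_j ^ 2`, `(lev_j - √lev_j) ^ 2 ≥ (9/16) lev_j ^ 2 ≥ u / 16`.
PROOF of `lvl_rise`: with `j = lvl v`: `v < 4 lev_j` (`j < K`), `4 lev_(j+1) ≤ u`, `lev_(j+1) = lev_j ^ 2 ≥ lev_j * L ^ 4`.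
-/

namespace Pool.Agent.Lib.MP_52661b_pr

open Finset

private lemma lev_sq' (L : ℝ) (k : ℕ) : lev L (k + 1) = lev L k ^ 2 := by
  unfold lev
  rw [← pow_mul]
  congr 1
  rw [pow_succ 2 (k + 1)]
  ring

private lemma lev_ge' {L : ℝ} (hL : 2 ≤ L) (k : ℕ) : 16 ≤ lev L k := by
  induction k with
  | zero =>
    unfold lev
    calc (16 : ℝ) = 2 ^ (2 * 2 ^ (0 + 1)) := by norm_num
      _ ≤ L ^ (2 * 2 ^ (0 + 1)) := pow_le_pow_left₀ (by norm_num) hL _
  | succ k ih =>
    rw [lev_sq']
    nlinarith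

private lemma lev_geL {L : ℝ} (hL : 2 ≤ L) (k : ℕ) : L ≤ lev L k := by
  unfold lev
  exact le_self_pow₀ (by linarith) (by positivity)

private lemma lev_mono {L : ℝ} (hL : 2 ≤ L) : Monotone (lev L) := by
  refine monotone_nat_of_le_succ fun k => ?_
  have h := lev_ge' hL k
  rw [lev_sq']
  nlinarith

theorem lvl_iff {L : ℝ} (hL : 2 ≤ L) {K k : ℕ} (hk : k < K) (u : ℝ) :
    k < lvl L K u ↔ 4 * lev L k ≤ u := by
  unfold lvl
  constructor
  · intro h
    by_contra hcon
    have h1 : (range K).filter (fun i => 4 * lev L i ≤ u) ⊆ range k := by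
      intro i hi
      rw [mem_filter] at hi
      rw [mem_range]
      by_contra h2
      have h3 := lev_mono hL (not_lt.1 h2)
      apply hcon
      linarith [hi.2]
    have h2 := card_le_card h1
    rw [card_range] at h2
    omega
  · intro h
    have h1 : range (k + 1) ⊆ (range K).filter (fun i => 4 * lev L i ≤ u) := by
      intro i hi
      rw [mem_range] at hi
      rw [mem_filter, mem_range]
      refine ⟨by omega, ?_⟩
      have h3 := lev_mono hL (Nat.lt_succ_iff.1 hi)
      linarith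
    have h2 := card_le_card h1
    rw [card_range] at h2
    omega

theorem lvl_le (L : ℝ) (K : ℕ) (u : ℝ) : lvl L K u ≤ K := by
  unfold lvl
  exact (card_filter_le _ _).trans_eq (card_range K)

theorem lvl_rt {L : ℝ} (hL : 2 ≤ L) {K : ℕ} {u : ℝ} (hu : u ≤ lev L K) {j : ℕ}
    (hj : lvl L K u = j + 1) : u / 16 ≤ (rt (lev L j) (lev L (j + 1)) u) ^ 2 := by
  have hK := lvl_le L K u
  have h0 : j < K := by omega
  have h1 : 4 * lev L j ≤ u := (lvl_iff hL h0 u).1 (by omega)
  have hm := lev_ge' hL j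
  have hu0 : 0 < u := by linarith
  unfold rt clp
  by_cases h2 : u ≤ lev L (j + 1)
  · rw [min_eq_left h2, max_eq_right (by linarith)]
    have h5 : √(lev L j) ≤ √u / 2 := by
      have h6 : lev L j ≤ u / 2 ^ 2 := by linarith
      have h7 := Real.sqrt_le_sqrt h6
      rw [Real.sqrt_div hu0.le, Real.sqrt_sq (by norm_num)] at h7
      exact h7
    have h8 : √u / 2 ≤ √u - √(lev L j) := by linarith
    have h9 : 0 ≤ √u / 2 := by positivity
    have h10 := pow_le_pow_left₀ h9 h8 2
    have h11 : (√u / 2) ^ 2 = u / 4 := by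
      rw [div_pow, Real.sq_sqrt hu0.le]; norm_num
    linarith
  · have h3 : u < 4 * lev L (j + 1) := by
      have h4 : j + 1 < K := by
        rcases Nat.lt_or_ge (j + 1) K with h | h
        · exact h
        · exfalso
          have h5 : K = j + 1 := by omega
          rw [h5] at hu
          exact h2 hu
      by_contra hcon
      have h5 := (lvl_iff hL h4 u).2 (not_lt.1 hcon)
      omega
    push Not at h2
    have hsq := lev_sq' L j
    rw [min_eq_right h2.le, max_eq_right (by rw [hsq]; nlinarith)]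
    rw [hsq] at h3 ⊢
    rw [Real.sqrt_sq (by linarith)]
    have h5 : √(lev L j) ≤ lev L j / 4 := by
      rw [Real.sqrt_le_left (by linarith)]
      nlinarith
    nlinarith

theorem lvl_rise {L : ℝ} (hL : 2 ≤ L) {K : ℕ} {u v : ℝ} (hv : 0 ≤ v)
    (h : lvl L K v + 2 ≤ lvl L K u) : v ≤ u / L := by
  have hK := lvl_le L K u
  have h0 : lvl L K v + 1 < K := by omega
  have h1 : 4 * lev L (lvl L K v + 1) ≤ u := (lvl_iff hL h0 u).1 (by omega)
  have h2 : v < 4 * lev L (lvl L K v) := by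
    by_contra hcon
    have h5 := (lvl_iff hL (k := lvl L K v) (K := K) (by omega) v).2 (not_lt.1 hcon)
    omega
  rw [le_div_iff₀ (by linarith)]
  rw [lev_sq'] at h1
  have h3 := lev_geL hL (lvl L K v)
  have h4 := lev_ge' hL (lvl L K v)
  nlinarith

end Pool.Agent.Lib.MP_52661b_pr
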