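import Pool.Agent.Lib.MP_52661b_pr.Sh.Lvl
import Pool.Agent.Lib.MP_52661b_pr.Descent

set_option autoImplicit false

/-!
# A drop of two levels costs potential (pointwise inequality)

PROOF: with `a = lev L k`, `b = lev L (k + 1)`, `c = clp a b u`: `v log (c / a) - c + a ≤ phi a b v` for every `k`
(`pj_affine`). If `lvl u + 2 ≤ lvl v` take `k = lvl v - 2`: `4 lev_(k+1) ≤ v`, `u < 4 lev_k` (`lvl_iff`), so
`c ≤ 4 a`, `c / a ≤ 4`; `phi a b v = v log (b / a) - b + a ≥ v (log (b / a) - 1 / 4)` and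
`v log (c / a) - c + a ≤ v log 4`, `log (b / a) = 2 * 2 ^ (k + 1) log L` (`descent_log`), so the difference, divided by
`2 ^ (k + 1)`, is at least `v (2 log L - (log 4 + 1 / 4) / 2 ^ (k + 1)) ≥ v log L` as `log L ≥ log 3 ≥ 1.05`.
-/

namespace Pool.Agent.Lib.MP_52661b_pr

open Finset

private lemma lvlD_term {L : ℝ} (hL : 3 ≤ L) (k : ℕ) {u v : ℝ} (hv : 0 ≤ v) :
    (1 / 2 ^ (k + 1)) * (v * Real.log (clp (lev L k) (lev L (k + 1)) u / lev L k) -
        clp (lev L k) (lev L (k + 1)) u + lev L k) ≤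
      (1 / 2 ^ (k + 1)) * phi (lev L k) (lev L (k + 1)) v := by
  have hL1 : (1 : ℝ) ≤ L := by linarith
  have ha := lev_pos L hL1 k
  have hab := lev_le_succ L hL1 k
  have hc := pj_clp_mem (lev L k) (lev L (k + 1)) u hab
  exact mul_le_mul_of_nonneg_left (pj_affine _ _ _ v (by linarith) hc.1 hc.2 hv) (by positivity)

private lemma lvlD_log4 : Real.log 4 + 1 / 4 ≤ 2 * Real.log 3 := by
  have h1 : Real.log 4 = 2 * Real.log 2 := by
    rw [show (4 : ℝ) = 2 ^ 2 by norm_num, Real.log_pow]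
    norm_num
  have h2 : Real.log 2 + 1 / 3 ≤ Real.log 3 := by
    have h3 : Real.log 3 = Real.log 2 + Real.log (3 / 2) := by
      rw [← Real.log_mul (by norm_num) (by norm_num)]
      norm_num
    have h4 : 1 - (3 / 2 : ℝ)⁻¹ ≤ Real.log (3 / 2) := Real.one_sub_inv_le_log_of_pos (by norm_num)
    norm_num at h4
    linarith
  linarith

private lemma lvlD_gap {L : ℝ} (hL : 3 ≤ L) (k : ℕ) {u v : ℝ}
    (hu4 : u < 4 * lev L k) (hv4 : 4 * lev L (k + 1) ≤ v) :
    (1 / 2 ^ (k + 1)) * (v * Real.log (clp (lev L k) (lev L (k + 1)) u / lev L k) -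
        clp (lev L k) (lev L (k + 1)) u + lev L k) + Real.log L * v ≤
      (1 / 2 ^ (k + 1)) * phi (lev L k) (lev L (k + 1)) v := by
  have hL1 : (1 : ℝ) ≤ L := by linarith
  have ha := lev_pos L hL1 k
  have hab := lev_le_succ L hL1 k
  have hlog := descent_log L hL1 k
  have hc := pj_clp_mem (lev L k) (lev L (k + 1)) u hab
  set a := lev L k with ha_def
  set b := lev L (k + 1) with hb_def
  have hv : 0 ≤ v := by linarith
  have hvb : clp a b v = b := by
    unfold clp
    rw [min_eq_right (by linarith), max_eq_right hab]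
  have hc4 : clp a b u ≤ 4 * a := by
    unfold clp
    exact max_le (by linarith) ((min_le_left _ _).trans hu4.le)
  have hcpos : 0 < clp a b u := by linarith [hc.1]
  have h1 : Real.log (clp a b u / a) ≤ Real.log 4 := by
    apply Real.log_le_log
    · exact div_pos hcpos (by linarith)
    · rw [div_le_iff₀ (by linarith)]
      exact hc4
  have h2 : v * Real.log (clp a b u / a) - clp a b u + a ≤ v * Real.log 4 := by
    have h3 := mul_le_mul_of_nonneg_left h1 hv
    linarith [hc.1]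
  have h3 : v * (2 * 2 ^ (k + 1) * Real.log L) - v / 4 ≤ phi a b v := by
    unfold phi
    rw [hvb, hlog]
    linarith
  have hpow : (2 : ℝ) ≤ 2 ^ (k + 1) := by
    calc (2 : ℝ) = 2 ^ 1 := by norm_num
      _ ≤ 2 ^ (k + 1) := pow_le_pow_right₀ (by norm_num) (by omega)
  have hp : (0 : ℝ) < 2 ^ (k + 1) := by positivity
  have hlL : Real.log 3 ≤ Real.log L := Real.log_le_log (by norm_num) hL
  have h4 := lvlD_log4
  have hL0 : 0 ≤ Real.log L := Real.log_nonneg hL1
  have h5 : Real.log 4 + 1 / 4 ≤ 2 ^ (k + 1) * Real.log L := by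
    have : 2 * Real.log L ≤ 2 ^ (k + 1) * Real.log L := mul_le_mul_of_nonneg_right hpow hL0
    linarith
  have h6 : v * (Real.log 4 + 1 / 4) ≤ v * (2 ^ (k + 1) * Real.log L) :=
    mul_le_mul_of_nonneg_left h5 hv
  have h7 : (v * Real.log (clp a b u / a) - clp a b u + a) + 2 ^ (k + 1) * (Real.log L * v) ≤
      phi a b v := by
    nlinarith
  have h8 : (1 / 2 ^ (k + 1)) * (v * Real.log (clp a b u / a) - clp a b u + a) + Real.log L * v =
      (1 / 2 ^ (k + 1)) * ((v * Real.log (clp a b u / a) - clp a b u + a) +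
        2 ^ (k + 1) * (Real.log L * v)) := by
    field_simp
  rw [h8]
  exact mul_le_mul_of_nonneg_left h7 (by positivity)

theorem lvl_drop {L : ℝ} (hL : 3 ≤ L) (K : ℕ) {u v : ℝ} (hu : 0 ≤ u) (hv : 0 ≤ v) :
    (∑ k ∈ range K, (1 / 2 ^ (k + 1)) *
      (v * Real.log (clp (lev L k) (lev L (k + 1)) u / lev L k) -
        clp (lev L k) (lev L (k + 1)) u + lev L k)) +
      Real.log L * (if lvl L K u + 2 ≤ lvl L K v then v else 0) ≤
    ∑ k ∈ range K, (1 / 2 ^ (k + 1)) * phi (lev L k) (lev L (k + 1)) v := by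
  have hL2 : (2 : ℝ) ≤ L := by linarith
  split_ifs with h
  · have hK := lvl_le L K v
    obtain ⟨j, hj⟩ : ∃ j, lvl L K v = j + 2 := ⟨lvl L K v - 2, by omega⟩
    have hjK : j + 1 < K := by omega
    have hv4 : 4 * lev L (j + 1) ≤ v := (lvl_iff hL2 hjK v).1 (by omega)
    have hu4 : u < 4 * lev L j := by
      by_contra hcon
      have h5 := (lvl_iff hL2 (k := j) (K := K) (by omega) u).2 (not_lt.1 hcon)
      omega
    have hmem : j ∈ range K := mem_range.2 (by omega)
    rw [← Finset.add_sum_erase _ _ hmem, ← Finset.add_sum_erase (range K)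
      (fun k => (1 / 2 ^ (k + 1)) * phi (lev L k) (lev L (k + 1)) v) hmem]
    have h1 := lvlD_gap hL j hu4 hv4
    have h2 := Finset.sum_le_sum (s := (range K).erase j) fun k _ =>
      lvlD_term (u := u) hL k hv
    linarith
  · rw [mul_zero, add_zero]
    exact Finset.sum_le_sum fun k _ => lvlD_term hL k hv

end Pool.Agent.Lib.MP_52661b_pr
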