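import Pool.Agent.Lib.MP_52661b_pr.Sh.Low
import Pool.Agent.Lib.MP_52661b_pr.WalkIter

set_option autoImplicit false

/-!
# Mixing

PROOF of `mixS`: `minorant` (FinalA.lean) with `κ = 7 / 8`, `c = 4 lev L 1` gives `h ≤ f_t`, `0 ≤ h ≤ c`, mean `7 / 8`. For
`t' ≥ t + s2`: `v = (step A)^[t' - t] h ≤ f_t'` on `A`, `contractS`: `∑ (v - 7/8) ^ 2 ≤ (1 - α / (9 n)) ^ s2 c ^ 2 A.card ≤ A.card / 64`,
so `∑ |v - 7/8| ≤ A.card / 8`; `∑ |f_t' - 1| ≤ ∑ (f_t' - v) + ∑ |v - 7/8| + A.card / 8` and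
`∑ (f_t' - v) = A.card / 8`, total `≤ 3 / 8 A.card`, so the total variation distance is `≤ 3 / 16` (`walk_iterate`:
`A.card * P^t x0 y = den A x0 t y`).
PROOF of `mixing_sharp`: `s = ⌈9 n log (19456 / α)⌉`, `t1 = ⌈n log (64 n)⌉`, `K = clog 2 n + 2` (`clog_le`, `two_pow_le_lev`),
`m = ⌊64 K / α (3456 n log L + 2 s)⌋ + 1`, `s2 = ⌈(9 n / α) log (1024 L ^ 16)⌉` (`lev L 1 = L ^ 8`, `c ^ 2 = 16 L ^ 16`),
`(1 - x) ^ j ≤ exp (- x j)`. Numbers: with `Λ = log (2 / α) ≥ log 2`, `l = log n ≥ log 2`: `log L ≤ 11.7 Λ`, `s ≤ 130 n Λ`, `K ≤ 6 l`,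
`m ≤ 64 * 6 l / α * (3456 * 11.7 + 260) n Λ + 1`, `s2 ≤ 1800 n Λ / α + 1`, `t1 ≤ 8 n l + 1`. Total `≤ 1.6 * 10 ^ 7 n l Λ / α`.
-/

namespace Pool.Agent.Lib.MP_52661b_pr

open Finset

private theorem mix_add {n : ℕ} (A : Finset (Cube n)) (x0 : Cube n) (t s : ℕ) :
    den A x0 (t + s) = (step A)^[s] (den A x0 t) := by
  unfold den
  rw [add_comm t s, Function.iterate_add_apply]

private theorem mix_pow (x y : ℝ) (hx1 : x ≤ 1) (hy : 0 < y) (t : ℕ)
    (ht : Real.log (1 / y) ≤ t * x) : (1 - x) ^ t ≤ y := by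
  have h1 : 1 - x ≤ Real.exp (-x) := by
    have := Real.add_one_le_exp (-x)
    linarith
  have h2 : (1 - x) ^ t ≤ Real.exp (-x) ^ t := pow_le_pow_left₀ (by linarith) h1 t
  rw [← Real.exp_nat_mul] at h2
  have h3 : Real.exp ((t : ℝ) * -x) ≤ Real.exp (Real.log y) := by
    apply Real.exp_le_exp.mpr
    rw [one_div, Real.log_inv] at ht
    linarith
  rw [Real.exp_log hy] at h3
  linarith

theorem mixS {n : ℕ} (hn : 0 < n) {A : Finset (Cube n)} (hA : IsUpperSet (A : Set (Cube n)))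
    (x0 : A) (α : ℝ) (hα : α = cubeMeasure A) (c : ℝ) (hc : 1 ≤ c) (t : ℕ)
    (ht : 7 / 8 * (A.card : ℝ) ≤
      ∑ x ∈ A.filter (fun x => den A x0.1 t x < c), den A x0.1 t x)
    (s2 : ℕ) (hs2 : (1 - α / (9 * (n : ℝ))) ^ s2 * c ^ 2 ≤ 1 / 64) (t' : ℕ) (ht' : t + s2 ≤ t') :
    tvDist A t' x0 ≤ 1 / 4 := by
  have hcard : 0 < (A.card : ℝ) := by
    exact_mod_cast Finset.card_pos.mpr ⟨x0.1, x0.2⟩
  have hα0 : 0 < α := by rw [hα]; unfold cubeMeasure; positivity
  have hα1 : α ≤ 1 := by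
    rw [hα]; unfold cubeMeasure
    rw [div_le_one (by positivity)]
    have := Finset.card_le_univ A
    have h3 : A.card ≤ 2 ^ n := by simpa using this
    exact_mod_cast h3
  have hn1 : (1 : ℝ) ≤ n := by exact_mod_cast hn
  obtain ⟨h, h0, h1, h2, h3⟩ := minorant A (den A x0.1 t) (den_nonneg A x0.1 t) (7 / 8) c
    (by norm_num) ht
  rw [max_eq_left (by linarith : (0 : ℝ) ≤ c)] at h2
  obtain ⟨j, rfl⟩ : ∃ j, t' = t + j := ⟨t' - t, by omega⟩
  have hj : s2 ≤ j := by omega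
  have hfac : 0 ≤ 1 - α / (9 * (n : ℝ)) := by
    rw [sub_nonneg, div_le_one (by positivity)]
    linarith
  have hfac1 : 1 - α / (9 * (n : ℝ)) ≤ 1 := by
    have : 0 ≤ α / (9 * (n : ℝ)) := by positivity
    linarith
  have hle : ∀ x ∈ A, (step A)^[j] h x ≤ den A x0.1 (t + j) x := by
    intro x hx
    rw [mix_add]
    exact step_iter_mono hA j h (den A x0.1 t) (fun y _ => h1 y) x hx
  have hsum : ∑ x ∈ A, (step A)^[j] h x = 7 / 8 * (A.card : ℝ) := by
    rw [it_sum hn hA, h3]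
  have hc1 := contractS hn hA ⟨x0.1, x0.2⟩ h (7 / 8) h3 j
  rw [← hα] at hc1
  have hc2 : ∑ x ∈ A, (h x - 7 / 8) ^ 2 ≤ c ^ 2 * (A.card : ℝ) := by
    have : ∑ x ∈ A, (h x - 7 / 8) ^ 2 ≤ ∑ x ∈ A, c ^ 2 := by
      apply Finset.sum_le_sum
      intro x _
      have := h0 x
      have := h2 x
      apply sq_le_sq'
      · linarith
      · linarith
    simpa [mul_comm] using this
  have hc3 : ∑ x ∈ A, ((step A)^[j] h x - 7 / 8) ^ 2 ≤ 1 / 64 * (A.card : ℝ) := by
    calc ∑ x ∈ A, ((step A)^[j] h x - 7 / 8) ^ 2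
        ≤ (1 - α / (9 * (n : ℝ))) ^ j * ∑ x ∈ A, (h x - 7 / 8) ^ 2 := hc1
      _ ≤ (1 - α / (9 * (n : ℝ))) ^ j * (c ^ 2 * (A.card : ℝ)) :=
          mul_le_mul_of_nonneg_left hc2 (pow_nonneg hfac j)
      _ ≤ (1 - α / (9 * (n : ℝ))) ^ s2 * (c ^ 2 * (A.card : ℝ)) :=
          mul_le_mul_of_nonneg_right (pow_le_pow_of_le_one hfac hfac1 hj) (by positivity)
      _ = ((1 - α / (9 * (n : ℝ))) ^ s2 * c ^ 2) * (A.card : ℝ) := by ring
      _ ≤ _ := mul_le_mul_of_nonneg_right hs2 hcard.le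
  have hc4 : ∑ x ∈ A, |(step A)^[j] h x - 7 / 8| ≤ 1 / 8 * (A.card : ℝ) := by
    have h4 : (∑ x ∈ A, |(step A)^[j] h x - 7 / 8|) ^ 2 ≤
        (A.card : ℝ) * ∑ x ∈ A, |(step A)^[j] h x - 7 / 8| ^ 2 := sq_sum_le_card_mul_sum_sq
    simp only [sq_abs] at h4
    have h5 : (∑ x ∈ A, |(step A)^[j] h x - 7 / 8|) ^ 2 ≤ (1 / 8 * (A.card : ℝ)) ^ 2 := by
      calc _ ≤ (A.card : ℝ) * ∑ x ∈ A, ((step A)^[j] h x - 7 / 8) ^ 2 := h4
        _ ≤ (A.card : ℝ) * (1 / 64 * (A.card : ℝ)) := mul_le_mul_of_nonneg_left hc3 hcard.le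
        _ = _ := by ring
    exact le_of_sq_le_sq h5 (by positivity)
  have hc5 : ∑ x ∈ A, |den A x0.1 (t + j) x - 1| ≤ 3 / 8 * (A.card : ℝ) := by
    have h4 : ∑ x ∈ A, |den A x0.1 (t + j) x - 1| ≤
        ∑ x ∈ A, ((den A x0.1 (t + j) x - (step A)^[j] h x) +
          |(step A)^[j] h x - 7 / 8| + 1 / 8) := by
      refine Finset.sum_le_sum fun x hx => ?_
      have a1 := hle x hx
      have a2 := abs_le.1 (le_refl |(step A)^[j] h x - 7 / 8|)
      rw [abs_le]
      constructor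
      · linarith [a2.1]
      · linarith [a2.2]
    rw [Finset.sum_add_distrib, Finset.sum_add_distrib, Finset.sum_sub_distrib,
      den_sum hn hA x0.1 x0.2, hsum, Finset.sum_const, nsmul_eq_mul] at h4
    linarith
  unfold tvDist
  have h6 : ∀ y : A, |((censoredWalk A) ^ (t + j)) x0 y - 1 / (A.card : ℝ)| =
      |den A x0.1 (t + j) y.1 - 1| / (A.card : ℝ) := by
    intro y
    have h7 : (A.card : ℝ) * ((censoredWalk A) ^ (t + j)) x0 y = den A x0.1 (t + j) y.1 :=
      walk_iterate hn hA x0 (t + j) y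
    rw [← h7, eq_div_iff hcard.ne']
    nth_rewrite 2 [← abs_of_pos hcard]
    rw [← abs_mul]
    congr 1
    field_simp
  rw [Finset.sum_congr rfl fun y _ => h6 y, ← Finset.sum_div]
  have h7 : ∑ y : A, |den A x0.1 (t + j) y.1 - 1| = ∑ x ∈ A, |den A x0.1 (t + j) x - 1| :=
    Finset.sum_coe_sort A fun x => |den A x0.1 (t + j) x - 1|
  rw [h7]
  have h8 : (∑ x ∈ A, |den A x0.1 (t + j) x - 1|) / (A.card : ℝ) ≤ 3 / 8 := by
    rw [div_le_iff₀ hcard]
    exact hc5
  linarith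

theorem mixing_sharp {n : ℕ} (hn : 2 ≤ n) {A : Finset (Cube n)}
    (hA : IsUpperSet (A : Set (Cube n))) (hne : A.Nonempty) (t : ℕ)
    (ht : 16000000 * (Real.log (2 / cubeMeasure A) / cubeMeasure A) * (n * Real.log n) ≤ t) :
    IsMixed A t := by
  have hcard : 0 < (A.card : ℝ) := by
    exact_mod_cast Finset.card_pos.mpr hne
  set α := cubeMeasure A with hα
  have hα0 : 0 < α := by rw [hα]; unfold cubeMeasure; positivity
  have hα1 : α ≤ 1 := by
    rw [hα]; unfold cubeMeasure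
    rw [div_le_one (by positivity)]
    have := Finset.card_le_univ A
    have h3 : A.card ≤ 2 ^ n := by simpa using this
    exact_mod_cast h3
  have hn0 : 0 < n := by omega
  have hn2 : (2 : ℝ) ≤ n := by exact_mod_cast hn
  have hnp : (0 : ℝ) < n := by linarith
  have l2a : (0.6931471803 : ℝ) < Real.log 2 := Real.log_two_gt_d9
  have l2b : Real.log 2 < (0.6931471808 : ℝ) := Real.log_two_lt_d9
  set l := Real.log n with hl
  have hl0 : 0.6931 ≤ l := by
    have : Real.log 2 ≤ Real.log n := Real.log_le_log (by norm_num) hn2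
    linarith
  set W := Real.log (2 / α) with hW
  have hW2 : Real.log 2 ≤ W := by
    apply Real.log_le_log (by norm_num)
    rw [le_div_iff₀ hα0]
    linarith
  have hW0 : 0.6931 ≤ W := by linarith
  set β := 1 / α with hβ
  have hβ1 : 1 ≤ β := by rw [hβ, le_div_iff₀ hα0]; linarith
  set L := 3136 / α with hL
  have hLpos : 0 < L := by rw [hL]; positivity
  have hL2 : 2 ≤ L := by
    rw [hL, le_div_iff₀ hα0]
    linarith
  have hL1 : 1 ≤ L := by linarith
  have hlog1568 : Real.log 1568 ≤ 10.7 * Real.log 2 := by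
    have h1 : Real.log ((1568 : ℝ) ^ 10) ≤ Real.log ((2 : ℝ) ^ 107) :=
      Real.log_le_log (by norm_num) (by norm_num)
    rw [Real.log_pow, Real.log_pow] at h1
    push_cast at h1
    linarith
  have hlogL : Real.log L = Real.log 1568 + W := by
    rw [hL, hW, ← Real.log_mul (by norm_num) (by positivity)]
    congr 1
    ring
  have hlogL1 : Real.log L ≤ 11.7 * W := by rw [hlogL]; linarith
  have hlogL0 : 0 ≤ Real.log L := Real.log_nonneg hL1
  set K := Nat.clog 2 n + 2 with hK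
  have hKl : (K : ℝ) ≤ 6 * l := by
    have h1 : (Nat.clog 2 n : ℝ) ≤ 3 * l := clog_le n hn
    rw [hK]
    push_cast
    linarith
  have hK0 : (0 : ℝ) ≤ K := by positivity
  have hK2 : (2 : ℝ) ^ n ≤ lev L K :=
    (two_pow_le_lev n L hL2).trans ((lev_le_succ L hL1 _).trans (lev_le_succ L hL1 _))
  -- parameters
  set s := ⌈9 * (n : ℝ) * Real.log (19456 / α)⌉₊ with hsdef
  set t1 := ⌈(n : ℝ) * Real.log (64 * n)⌉₊ with ht1def
  set m := ⌊64 * (K : ℝ) / α * (3456 * n * Real.log L + 2 * s)⌋₊ + 1 with hmdef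
  set s2 := ⌈(9 * (n : ℝ) / α) * Real.log (1024 * L ^ 16)⌉₊ with hs2def
  have hm : 64 * (K : ℝ) / α * (3456 * n * Real.log L + 2 * s) < m := by
    rw [hmdef]
    push_cast
    exact Nat.lt_floor_add_one _
  have hlogs : Real.log (19456 / α) = Real.log 9728 + W := by
    rw [hW, ← Real.log_mul (by norm_num) (by positivity)]
    congr 1
    ring
  have hlog9728 : Real.log 9728 ≤ 14 * Real.log 2 := by
    have h1 : Real.log (9728 : ℝ) ≤ Real.log ((2 : ℝ) ^ 14) :=
      Real.log_le_log (by norm_num) (by norm_num)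
    rw [Real.log_pow] at h1
    push_cast at h1
    linarith
  have hlog9728' : 2 * Real.log 2 ≤ Real.log 9728 := by
    have h1 : Real.log ((2 : ℝ) ^ 2) ≤ Real.log (9728 : ℝ) :=
      Real.log_le_log (by norm_num) (by norm_num)
    rw [Real.log_pow] at h1
    push_cast at h1
    linarith
  have hs : n ≤ s := by
    have h1 : (n : ℝ) ≤ 9 * (n : ℝ) * Real.log (19456 / α) := by
      rw [hlogs]
      nlinarith
    have h2 : (n : ℝ) ≤ (s : ℝ) := h1.trans (Nat.le_ceil _)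
    exact_mod_cast h2
  have hs2 : 304 / α * (1 - 1 / (9 * (n : ℝ))) ^ s ≤ 1 / 64 := by
    have h1 : (1 - 1 / (9 * (n : ℝ))) ^ s ≤ α / 19456 := by
      apply mix_pow _ _ (by rw [div_le_one (by positivity)]; linarith) (by positivity)
      rw [one_div_div, mul_one_div, le_div_iff₀ (by positivity)]
      have h2 : 9 * (n : ℝ) * Real.log (19456 / α) ≤ (s : ℝ) := Nat.le_ceil _
      linarith
    calc 304 / α * (1 - 1 / (9 * (n : ℝ))) ^ s ≤ 304 / α * (α / 19456) :=
          mul_le_mul_of_nonneg_left h1 (by positivity)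
      _ = 1 / 64 := by
          rw [div_mul_div_comm, mul_comm α 19456, ← div_mul_div_comm, div_self hα0.ne']
          norm_num
  have ht1 : ∀ t, t1 ≤ t → n * (1 - 1 / (n : ℝ)) ^ t ≤ 1 / 64 := by
    intro t htt
    have h1 : (n : ℝ) * Real.log (64 * n) ≤ t := by
      have h2 : (n : ℝ) * Real.log (64 * n) ≤ (t1 : ℝ) := Nat.le_ceil _
      have h3 : (t1 : ℝ) ≤ t := by exact_mod_cast htt
      linarith
    have h2 : (1 - 1 / (n : ℝ)) ^ t ≤ 1 / (64 * n) := by
      apply mix_pow _ _ (by rw [div_le_one hnp]; linarith) (by positivity)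
      rw [one_div_one_div, mul_one_div, le_div_iff₀ hnp]
      linarith
    calc n * (1 - 1 / (n : ℝ)) ^ t ≤ n * (1 / (64 * n)) := mul_le_mul_of_nonneg_left h2 hnp.le
      _ = 1 / 64 := by field_simp
  have hlev1 : lev L 1 = L ^ 8 := by unfold lev; norm_num
  have hs22 : (1 - α / (9 * (n : ℝ))) ^ s2 * (4 * lev L 1) ^ 2 ≤ 1 / 64 := by
    have h1 : (1 - α / (9 * (n : ℝ))) ^ s2 ≤ 1 / (1024 * L ^ 16) := by
      apply mix_pow _ _ (by rw [div_le_one (by positivity)]; linarith) (by positivity)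
      rw [one_div_one_div, mul_div_assoc', le_div_iff₀ (by positivity)]
      have h2 : (9 * (n : ℝ) / α) * Real.log (1024 * L ^ 16) ≤ (s2 : ℝ) := Nat.le_ceil _
      rw [div_mul_eq_mul_div, div_le_iff₀ hα0] at h2
      linarith
    rw [hlev1]
    calc (1 - α / (9 * (n : ℝ))) ^ s2 * (4 * L ^ 8) ^ 2 ≤ 1 / (1024 * L ^ 16) * (4 * L ^ 8) ^ 2 :=
          mul_le_mul_of_nonneg_right h1 (by positivity)
      _ = 1 / 64 := by
          have hL16 : L ^ 16 ≠ 0 := by positivity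
          rw [one_div_mul_eq_div, div_eq_iff (by positivity)]
          ring
  -- numerical bound
  have hlogL16 : Real.log (1024 * L ^ 16) = 10 * Real.log 2 + 16 * Real.log L := by
    rw [Real.log_mul (by norm_num) (by positivity), Real.log_pow]
    have : (1024 : ℝ) = 2 ^ 10 := by norm_num
    rw [this, Real.log_pow]
    push_cast
    ring
  set X := (n : ℝ) * l * W * β with hX
  have hnW : 1.386 ≤ (n : ℝ) * W := by nlinarith
  have hnl : 1.386 ≤ (n : ℝ) * l := by nlinarith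
  have hX1 : 0.96 ≤ X := by
    have h1 : 0.96 ≤ (n : ℝ) * l * W := by nlinarith
    have h2 : (n : ℝ) * l * W * 1 ≤ (n : ℝ) * l * W * β :=
      mul_le_mul_of_nonneg_left hβ1 (by positivity)
    linarith
  have hnlX : (n : ℝ) * l ≤ 1.443 * X := by
    have h1 : (n : ℝ) * l * 1 ≤ (n : ℝ) * l * (1.443 * W) :=
      mul_le_mul_of_nonneg_left (by linarith) (by linarith)
    have h2 : (n : ℝ) * l * W * 1 ≤ (n : ℝ) * l * W * β :=
      mul_le_mul_of_nonneg_left hβ1 (by positivity)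
    linarith
  have hnWX : (n : ℝ) * W * β ≤ 1.443 * X := by
    have h0 : 0 ≤ (n : ℝ) * W * β := by positivity
    have h1 : (n : ℝ) * W * β * 1 ≤ (n : ℝ) * W * β * (1.443 * l) :=
      mul_le_mul_of_nonneg_left (by linarith) h0
    have h2 : (n : ℝ) * W * β * (1.443 * l) = 1.443 * X := by rw [hX]; ring
    linarith
  have hsb : (s : ℝ) ≤ 136 * (n * W) := by
    have h1 : (s : ℝ) < 9 * (n : ℝ) * Real.log (19456 / α) + 1 := by
      apply Nat.ceil_lt_add_one
      rw [hlogs]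
      apply mul_nonneg (by positivity)
      linarith
    rw [hlogs] at h1
    have h2 : 9 * (n : ℝ) * (Real.log 9728 + W) ≤ 9 * (n : ℝ) * (15 * W) :=
      mul_le_mul_of_nonneg_left (by linarith) (by positivity)
    linarith
  have hmb : (m : ℝ) ≤ 15631565 * X + 1 := by
    have hb0 : 0 ≤ 64 * (K : ℝ) / α * (3456 * n * Real.log L + 2 * s) := by positivity
    have h1 : (m : ℝ) ≤ 64 * (K : ℝ) / α * (3456 * n * Real.log L + 2 * s) + 1 := by
      rw [hmdef]
      push_cast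
      have := Nat.floor_le hb0
      linarith
    have h2 : 64 * (K : ℝ) / α * (3456 * n * Real.log L + 2 * s) =
        64 * β * (K * (3456 * n * Real.log L + 2 * s)) := by
      rw [hβ]; ring
    have h3 : 3456 * n * Real.log L + 2 * s ≤ 40707.2 * (n * W) := by
      have h4 : 3456 * (n : ℝ) * Real.log L ≤ 3456 * (n : ℝ) * (11.7 * W) :=
        mul_le_mul_of_nonneg_left hlogL1 (by positivity)
      linarith
    have h4 : (K : ℝ) * (3456 * n * Real.log L + 2 * s) ≤ (6 * l) * (40707.2 * (n * W)) :=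
      mul_le_mul hKl h3 (by positivity) (by linarith)
    have h5 : 64 * β * (K * (3456 * n * Real.log L + 2 * s)) ≤
        64 * β * ((6 * l) * (40707.2 * (n * W))) :=
      mul_le_mul_of_nonneg_left h4 (by positivity)
    have h6 : 64 * β * ((6 * l) * (40707.2 * (n * W))) = 15631564.8 * X := by rw [hX]; ring
    linarith
  have hs2b : (s2 : ℝ) ≤ 2562 * X + 1 := by
    have h1 : (s2 : ℝ) < (9 * (n : ℝ) / α) * Real.log (1024 * L ^ 16) + 1 := by
      apply Nat.ceil_lt_add_one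
      rw [hlogL16]
      apply mul_nonneg (by positivity)
      linarith
    rw [hlogL16] at h1
    have h2 : 9 * (n : ℝ) / α = 9 * n * β := by rw [hβ]; ring
    rw [h2] at h1
    have h3 : 9 * (n : ℝ) * β * (10 * Real.log 2 + 16 * Real.log L) ≤
        9 * (n : ℝ) * β * (197.2 * W) :=
      mul_le_mul_of_nonneg_left (by linarith) (by positivity)
    have h4 : 9 * (n : ℝ) * β * (197.2 * W) = 1774.8 * (n * W * β) := by ring
    linarith
  have ht1b : (t1 : ℝ) ≤ 11 * X + 1 := by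
    have h2 : Real.log (64 * n) = 6 * Real.log 2 + l := by
      rw [Real.log_mul (by norm_num) (by positivity)]
      have : (64 : ℝ) = 2 ^ 6 := by norm_num
      rw [this, Real.log_pow]
      push_cast
      ring
    have h1 : (t1 : ℝ) < (n : ℝ) * Real.log (64 * n) + 1 := by
      apply Nat.ceil_lt_add_one
      rw [h2]
      apply mul_nonneg hnp.le
      linarith
    rw [h2] at h1
    have hl2 : Real.log 2 ≤ l := Real.log_le_log (by norm_num) hn2
    have h3 : (n : ℝ) * (6 * Real.log 2 + l) ≤ n * (7 * l) :=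
      mul_le_mul_of_nonneg_left (by linarith) hnp.le
    linarith
  have hfin : ((t1 + m + s2 : ℕ) : ℝ) ≤ (t : ℝ) := by
    refine le_trans ?_ ht
    push_cast
    have e : 16000000 * (W / α) * (n * l) = 16000000 * X := by
      rw [hX, hβ]; ring
    rw [e]
    linarith
  have hfin' : t1 + m + s2 ≤ t := by exact_mod_cast hfin
  intro x0
  obtain ⟨t0, h1, h2, h3⟩ := lowS hn0 hA x0.1 x0.2 α hα L hL K (by omega) hK2 s hs hs2 t1 ht1 m hm
  exact mixS hn0 hA x0 α hα (4 * lev L 1) (by linarith [lev_pos L hL1 1]) t0 h3 s2 hs22 t (by omega)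

end Pool.Agent.Lib.MP_52661b_pr
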