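import Pool.Agent.Lib.MP_52661b_pr.TwoPiece

set_option autoImplicit false

/-!
# Variance of a function on two nested pieces, sharp form

PROOF (compare `TwoPiece.lean`, same notation): `S = s.card`, `T = t.card`, `r = (S - T) / (S + T)`,
`V0`, `V1`, `W'` the unnormalised variances of `b` on `t`, `a` on `s`, `a` on `t`, `d` = mean of `b - a` on `t`,
`e` = mean of `a` on `t` minus mean of `a` on `s`, `D = ∑ x ∈ t, (b x - a x) ^ 2`.
Identity: left side `= V0 + V1 + T (1 + r) / 2 * (d + e) ^ 2`.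
`(hi)` `T (1 + r) / 2 * e ^ 2 ≤ r (V1 - W')` (variance of `a` on `s` against the pieces `t`, `s \ t`).
`(d + e) ^ 2 ≤ (1 + 1 / l) d ^ 2 + (1 + l) e ^ 2` with `l = (1 + r) g / (1 + g)`.
`(hii)` `W' ≥ (1 - η) V0 - (1 / η - 1) (D - T d ^ 2)` for `0 < η ≤ 1`, with `η = 2 r g / (1 + 2 g + r g)`; multiplied by
`r`: `r W' ≥ r (1 - η) V0 - ((1 + 2 g + r g) / (2 g) - r) (D - T d ^ 2)` (also for `r = 0`).
Coefficients: of `V1`: `1 + (1 + l) r = (1 + r) (1 + g r / (1 + g))`; of `V0`: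
`1 - (1 + l) r (1 - η) = (1 - r) (1 - g r / (1 + g))`; of `D - T d ^ 2`:
`(1 + l) ((1 + 2 g + r g) / (2 g) - r) = ((1 + 2 g) ^ 2 - r ^ 2 g ^ 2) / (2 g (1 + g)) ≤ 9 / (2 g (1 + g))`; of `T d ^ 2`:
`(1 + r) / 2 * (1 + 1 / l) = (1 + r) / 2 + (1 + g) / (2 g) ≤ 9 / (2 g (1 + g))`.
If `t = ∅` then `r = 1`, all is trivial (`1 ≤ 2 (1 + g / (1 + g))`).
-/

namespace Pool.Agent.Lib.MP_52661b_pr

open Finset

private theorem tw_real {S T a1 a2 q1 q2 b1 qb c g r : ℝ} (hS : 0 < S) (hT : 0 < T)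
    (hTS : T ≤ S) (hg0 : 0 < g) (hg1 : g ≤ 1) (hr : r = (S - T) / (S + T))
    (h1 : (a1 - a2) ^ 2 ≤ (S - T) * (q1 - q2))
    (h2 : ∀ w : ℝ, ((w - 1) * b1 + a2) ^ 2 ≤ T * ((w - 1) ^ 2 * qb + 2 * (w - 1) * c + q2)) :
    (q1 + qb) - (a1 + b1) ^ 2 / (S + T) ≤
      (1 - r) * (1 - g * r / (1 + g)) * (qb - b1 ^ 2 / T) +
        (1 + r) * (1 + g * r / (1 + g)) * (q1 - a1 ^ 2 / S) +
        9 / (2 * g * (1 + g)) * (qb - 2 * c + q2) := by
  have hST : 0 < S + T := by positivity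
  have hr2 : 2 * S / (S + T) = 1 + r := by
    rw [hr]; field_simp; ring
  have hr0 : 0 ≤ r := by
    rw [hr]; exact div_nonneg (by linarith) hST.le
  have hr3 : r ≤ 1 := by
    rw [hr, div_le_one hST]; linarith
  obtain ⟨V0, hV0⟩ : ∃ V, V = qb - b1 ^ 2 / T := ⟨_, rfl⟩
  obtain ⟨V1, hV1⟩ : ∃ V, V = q1 - a1 ^ 2 / S := ⟨_, rfl⟩
  obtain ⟨W, hW⟩ : ∃ V, V = q2 - a2 ^ 2 / T := ⟨_, rfl⟩
  obtain ⟨d, hd⟩ : ∃ V, V = (b1 - a2) / T := ⟨_, rfl⟩
  obtain ⟨e, he⟩ : ∃ V, V = a2 / T - a1 / S := ⟨_, rfl⟩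
  obtain ⟨D, hD⟩ : ∃ V, V = qb - 2 * c + q2 := ⟨_, rfl⟩
  have h3 := h2 0
  have hDT : T * d ^ 2 ≤ D := by
    have e1 : T * d ^ 2 = (b1 - a2) ^ 2 / T := by
      rw [hd]; field_simp
    rw [e1, div_le_iff₀ hT, hD]
    nlinarith [h3]
  have hid : (q1 + qb) - (a1 + b1) ^ 2 / (S + T) = V0 + V1 + T * (1 + r) / 2 * (d + e) ^ 2 := by
    rw [hV0, hV1, hd, he, ← hr2]
    field_simp
    ring
  have hi : T * (1 + r) / 2 * e ^ 2 ≤ r * (V1 - W) := by
    rcases eq_or_lt_of_le hTS with hc | hc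
    · have h5 : a1 = a2 := by
        have h6 : (a1 - a2) ^ 2 ≤ 0 := by
          rw [hc] at h1
          linarith
        have h7 : a1 - a2 = 0 := by
          have := le_antisymm h6 (sq_nonneg _)
          exact pow_eq_zero_iff (two_ne_zero) |>.1 this
        linarith
      have h8 : e = 0 := by
        rw [he, h5, hc, sub_self]
      have h9 : r = 0 := by
        rw [hr, hc, sub_self, zero_div]
      rw [h8, h9]
      simp
    · have hc' : 0 < S - T := by linarith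
      have e2 : r * (V1 - W) - T * (1 + r) / 2 * e ^ 2 =
          r * ((q1 - q2) - (a1 - a2) ^ 2 / (S - T)) := by
        rw [hV1, hW, he, ← hr2, hr]
        field_simp
        ring
      have e3 : 0 ≤ (q1 - q2) - (a1 - a2) ^ 2 / (S - T) := by
        rw [sub_nonneg, div_le_iff₀ hc']
        linarith
      have e4 := mul_nonneg hr0 e3
      linarith
  have hη : ∀ η : ℝ, η * (1 - η) * V0 - (1 - η) * (D - T * d ^ 2) ≤ η * W := by
    intro η
    have h5 := h2 η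
    have e1 : η * W - (η * (1 - η) * V0 - (1 - η) * (D - T * d ^ 2)) =
        (T * ((η - 1) ^ 2 * qb + 2 * (η - 1) * c + q2) -
          ((η - 1) * b1 + a2) ^ 2) / T := by
      rw [hW, hV0, hD, hd]
      field_simp
      ring
    have e2 : 0 ≤ (T * ((η - 1) ^ 2 * qb + 2 * (η - 1) * c + q2) -
          ((η - 1) * b1 + a2) ^ 2) / T := by
      apply div_nonneg _ hT.le
      linarith
    linarith
  -- the parameters
  have hg2 : 0 < 1 + g := by linarith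
  have hrg : 0 ≤ r * g := mul_nonneg hr0 hg0.le
  have hden : 0 < 1 + 2 * g + r * g := by linarith
  obtain ⟨l, hl⟩ : ∃ l, l = (1 + r) * g / (1 + g) := ⟨_, rfl⟩
  obtain ⟨η, hηd⟩ : ∃ η, η = 2 * r * g / (1 + 2 * g + r * g) := ⟨_, rfl⟩
  obtain ⟨m, hm⟩ : ∃ m, m = (1 + 2 * g + r * g) / (2 * g) := ⟨_, rfl⟩
  have hl0 : 0 < l := by
    rw [hl]
    have : 0 < 1 + r := by linarith
    positivity
  have hm0 : 0 ≤ m := by rw [hm]; positivity
  have hmη : m * η = r := by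
    rw [hm, hηd]; field_simp
  have hii : r * (1 - η) * V0 - (m - r) * (D - T * d ^ 2) ≤ r * W := by
    have h5 := mul_le_mul_of_nonneg_left (hη η) hm0
    have e1 : m * (η * (1 - η) * V0 - (1 - η) * (D - T * d ^ 2)) =
        (m * η) * (1 - η) * V0 - (m - m * η) * (D - T * d ^ 2) := by ring
    have e2 : m * (η * W) = (m * η) * W := by ring
    rw [e1, e2, hmη] at h5
    exact h5
  have c0 : 1 - (1 + l) * (r * (1 - η)) = (1 - r) * (1 - g * r / (1 + g)) := by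
    rw [hl, hηd]
    field_simp
    ring
  have c1 : 1 + (1 + l) * r = (1 + r) * (1 + g * r / (1 + g)) := by
    rw [hl]
    field_simp
    ring
  have c2 : (1 + l) * (m - r) ≤ 9 / (2 * g * (1 + g)) := by
    have e1 : (1 + l) * (m - r) = ((1 + 2 * g) ^ 2 - (r * g) ^ 2) / (2 * g * (1 + g)) := by
      rw [hl, hm]
      field_simp
      ring
    rw [e1]
    apply div_le_div_of_nonneg_right _ (by positivity)
    nlinarith [sq_nonneg (r * g)]
  have c3 : (1 + r) / 2 * (1 + 1 / l) ≤ 9 / (2 * g * (1 + g)) := by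
    have h1r : 0 < 1 + r := by linarith
    have e1 : (1 + r) / 2 * (1 + 1 / l) = ((1 + r) * g * (1 + g) + (1 + g) ^ 2) /
        (2 * g * (1 + g)) := by
      rw [hl]
      field_simp
    rw [e1]
    apply div_le_div_of_nonneg_right _ (by positivity)
    nlinarith [mul_nonneg hg0.le hg0.le, mul_nonneg hr0 hg0.le,
      mul_nonneg (sub_nonneg.2 hr3) (mul_nonneg hg0.le hg2.le)]
  have f1 := mul_le_mul_of_nonneg_right c2 (sub_nonneg.2 hDT)
  have hTd : 0 ≤ T * d ^ 2 := by positivity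
  have f2 := mul_le_mul_of_nonneg_right c3 hTd
  have e5 : (d + e) ^ 2 ≤ (1 + 1 / l) * d ^ 2 + (1 + l) * e ^ 2 := by
    have e1 : (1 + 1 / l) * d ^ 2 + (1 + l) * e ^ 2 - (d + e) ^ 2 = (d - l * e) ^ 2 / l := by
      field_simp
      ring
    have e2 : 0 ≤ (d - l * e) ^ 2 / l := by positivity
    linarith
  have hT2 : 0 ≤ T * (1 + r) / 2 := by
    have h1r : 0 < 1 + r := by linarith
    positivity
  have e6 := mul_le_mul_of_nonneg_left e5 hT2
  have hl1 : 0 ≤ 1 + l := by linarith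
  have e7 := mul_le_mul_of_nonneg_left hi hl1
  have e8 := mul_le_mul_of_nonneg_left hii hl1
  rw [← hV0, ← hV1, ← hD, hid, ← c0, ← c1]
  linarith

theorem twoPieceS {β : Type*} [DecidableEq β] (s t : Finset β) (hts : t ⊆ s) (hs : s.Nonempty)
    (a b : β → ℝ) (g r : ℝ) (hg0 : 0 < g) (hg1 : g ≤ 1)
    (hr : r = ((s.card : ℝ) - (t.card : ℝ)) / ((s.card : ℝ) + (t.card : ℝ))) :
    (∑ x ∈ s, a x ^ 2 + ∑ x ∈ t, b x ^ 2) -
        (∑ x ∈ s, a x + ∑ x ∈ t, b x) ^ 2 / ((s.card : ℝ) + (t.card : ℝ)) ≤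
      (1 - r) * (1 - g * r / (1 + g)) *
          (∑ x ∈ t, b x ^ 2 - (∑ x ∈ t, b x) ^ 2 / (t.card : ℝ)) +
        (1 + r) * (1 + g * r / (1 + g)) *
          (∑ x ∈ s, a x ^ 2 - (∑ x ∈ s, a x) ^ 2 / (s.card : ℝ)) +
        9 / (2 * g * (1 + g)) * ∑ x ∈ t, (b x - a x) ^ 2 := by
  have hS : (0 : ℝ) < s.card := by exact_mod_cast hs.card_pos
  have h4 : (∑ x ∈ s, a x) ^ 2 ≤ (s.card : ℝ) * ∑ x ∈ s, a x ^ 2 := sq_sum_le_card_mul_sum_sq
  rcases t.eq_empty_or_nonempty with ht | ht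
  · subst ht
    simp only [sum_empty, add_zero, card_empty, Nat.cast_zero, mul_zero, sub_zero] at hr ⊢
    have hr1 : r = 1 := by
      rw [hr]; exact div_self hS.ne'
    have e2 : 0 ≤ ∑ x ∈ s, a x ^ 2 - (∑ x ∈ s, a x) ^ 2 / (s.card : ℝ) := by
      rw [sub_nonneg, div_le_iff₀ hS]
      linarith
    have e3 : 0 ≤ g * r / (1 + g) := by
      rw [hr1]; positivity
    rw [hr1] at e3 ⊢
    nlinarith [mul_nonneg e3 e2]
  · have hT : (0 : ℝ) < t.card := by exact_mod_cast ht.card_pos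
    have hTS : (t.card : ℝ) ≤ s.card := by exact_mod_cast card_le_card hts
    have hd1 : ∑ x ∈ s \ t, a x = ∑ x ∈ s, a x - ∑ x ∈ t, a x := by
      rw [eq_sub_iff_add_eq, sum_sdiff hts]
    have hd2 : ∑ x ∈ s \ t, a x ^ 2 = ∑ x ∈ s, a x ^ 2 - ∑ x ∈ t, a x ^ 2 := by
      rw [eq_sub_iff_add_eq, sum_sdiff hts]
    have hd3 : ((s \ t).card : ℝ) = (s.card : ℝ) - t.card := by
      rw [card_sdiff_of_subset hts, Nat.cast_sub (card_le_card hts)]
    have h1 : (∑ x ∈ s, a x - ∑ x ∈ t, a x) ^ 2 ≤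
        ((s.card : ℝ) - t.card) * (∑ x ∈ s, a x ^ 2 - ∑ x ∈ t, a x ^ 2) := by
      rw [← hd1, ← hd2, ← hd3]
      exact sq_sum_le_card_mul_sum_sq
    have h2 : ∀ w : ℝ, ((w - 1) * ∑ x ∈ t, b x + ∑ x ∈ t, a x) ^ 2 ≤
        (t.card : ℝ) * ((w - 1) ^ 2 * ∑ x ∈ t, b x ^ 2 + 2 * (w - 1) * ∑ x ∈ t, b x * a x +
          ∑ x ∈ t, a x ^ 2) := by
      intro w
      have h3 : (∑ x ∈ t, ((w - 1) * b x + a x)) ^ 2 ≤
          (t.card : ℝ) * ∑ x ∈ t, ((w - 1) * b x + a x) ^ 2 := sq_sum_le_card_mul_sum_sq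
      have e1 : ∑ x ∈ t, ((w - 1) * b x + a x) = (w - 1) * ∑ x ∈ t, b x + ∑ x ∈ t, a x := by
        rw [sum_add_distrib, mul_sum]
      have e2 : ∑ x ∈ t, ((w - 1) * b x + a x) ^ 2 =
          (w - 1) ^ 2 * ∑ x ∈ t, b x ^ 2 + 2 * (w - 1) * ∑ x ∈ t, b x * a x +
          ∑ x ∈ t, a x ^ 2 := by
        rw [mul_sum, mul_sum, ← sum_add_distrib, ← sum_add_distrib]
        refine sum_congr rfl fun x _ => ?_
        ring
      rw [e1, e2] at h3
      exact h3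
    have h5 : ∑ x ∈ t, (b x - a x) ^ 2 =
        ∑ x ∈ t, b x ^ 2 - 2 * ∑ x ∈ t, b x * a x + ∑ x ∈ t, a x ^ 2 := by
      rw [mul_sum, ← sum_sub_distrib, ← sum_add_distrib]
      refine sum_congr rfl fun x _ => ?_
      ring
    rw [h5]
    exact tw_real hS hT hTS hg0 hg1 hr h1 h2

end Pool.Agent.Lib.MP_52661b_pr
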