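import Pool.Agent.Lib.MP_52661b_pr.Sh.Drp
import Pool.Agent.Lib.MP_52661b_pr.Sh.Des
import Pool.Agent.Lib.MP_52661b_pr.BurnIn

set_option autoImplicit false

/-!
# The window inequality

PROOF. `u = (step A)^[s] f`, `Λ_y h = (step A)^[s] h y`, `F_k x = if lvl L K (f x) = k + 2 then f x else 0`.
(1) `∑ y ∈ A, ∑ k ∈ range K, Λ_y F_k * nz A k y = ∑ k, ∑ x ∈ A, F_k x * (step A)^[s] (nz A k) x` (`step_iter_symm`)
`≥ ∑ k, ∑ x ∈ A, F_k x * (step univ)^[s] (nz A k) x` (`compare`, `nz_mono`) `≥ a *` (sum of `f` over the `x ∈ A ∩ G` with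
`2 ≤ lvl`, all `k = lvl - 2 < K`).
(2) For `y ∈ A` and every `x` with `lvl (f x) = k + 2`: `f x * nz A k y` is at most
`f x * (if 1 ≤ lvl (u y) then wz A (lvl (u y) - 1) y else 0) + (if lvl (u y) + 2 ≤ lvl (f x) then f x else 0) + u y / L`:
if `|lvl (f x) - lvl (u y)| ≤ 1` then `k ∈ {j, j - 1, j - 2}` for `j = lvl (u y) - 1`; if `lvl (f x) + 2 ≤ lvl (u y)` then
`f x ≤ u y / L` (`lvl_rise`); `nz ≤ 1`. Apply `Λ_y` (`it_lin`, `step_iter_mono`, `Λ_y f = u y`) to the sum over `k` (at most one
`k` for each `x`).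
(3) `u y * wz A j y ≤ 16 * ∑ k ∈ range K, wz A k y * rt_k (u y) ^ 2` for `j = lvl (u y) - 1` (`lvl_rt`, `single_le_sum`).
(4) `descentS` for `u`, `dropS`, `∑ y ∈ A, u y = A.card`.
-/

namespace Pool.Agent.Lib.MP_52661b_pr

open Finset

private theorem wn_sum {n : ℕ} (hn : 0 < n) (A : Finset (Cube n)) (s : ℕ) (K : ℕ) (c : ℕ → ℝ)
    (F : ℕ → Cube n → ℝ) (y : Cube n) :
    (step A)^[s] (fun x => ∑ k ∈ range K, c k * F k x) y =
      ∑ k ∈ range K, c k * (step A)^[s] (F k) y := by
  induction K with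
  | zero =>
    simp only [range_zero, sum_empty]
    have h := it_lin hn A s 0 0 0 (fun _ => (0 : ℝ)) (fun _ => (0 : ℝ)) y
    simpa using h
  | succ K ih =>
    rw [sum_range_succ, ← ih]
    have h := it_lin hn A s 1 (c K) 0 (fun x => ∑ k ∈ range K, c k * F k x) (F K) y
    have h2 : (fun z => 1 * (fun x => ∑ k ∈ range K, c k * F k x) z + c K * F K z + 0) =
        fun x => ∑ k ∈ range (K + 1), c k * F k x := by
      funext z
      rw [sum_range_succ]
      ring
    rw [h2] at h
    rw [h]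
    ring

private theorem wn_one {K p : ℕ} (hp : p ≤ K) (g : ℕ → ℝ) (v : ℝ) :
    ∑ k ∈ range K, g k * (if p = k + 2 then v else 0) = if 2 ≤ p then g (p - 2) * v else 0 := by
  by_cases h : 2 ≤ p
  · rw [if_pos h, sum_eq_single (p - 2)]
    · rw [if_pos (by omega)]
    · intro b _ hb
      rw [if_neg (by omega), mul_zero]
    · intro h1
      exact absurd (mem_range.2 (by omega)) h1
  · rw [if_neg h]
    refine sum_eq_zero fun k _ => ?_
    rw [if_neg (by omega), mul_zero]

theorem windowS {n : ℕ} (hn : 0 < n) {A : Finset (Cube n)} (hA : IsUpperSet (A : Set (Cube n)))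
    {L : ℝ} (hL : 3 ≤ L) (K s : ℕ) (G : Finset (Cube n)) (a : ℝ) (ha : 0 ≤ a)
    (hG : ∀ x ∈ G, ∀ k < K, a ≤ (step univ)^[s] (nz A k) x)
    (f : Cube n → ℝ) (hf : ∀ x, 0 ≤ f x) (hfs : ∑ x ∈ A, f x = (A.card : ℝ))
    (hfK : ∀ x ∈ A, (step A)^[s] f x ≤ lev L K) :
    a * ∑ x ∈ A.filter (fun x => x ∈ G ∧ 2 ≤ lvl L K (f x)), f x ≤
      3456 * n * (pot A L K ((step A)^[s] f) - pot A L K ((step A)^[s + 1] f)) +
        (pot A L K f - pot A L K ((step A)^[s] f)) / Real.log L + 49 / L * (A.card : ℝ) := by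
  classical
  have hL0 : 0 < L := by linarith
  have hL2 : 2 ≤ L := by linarith
  set U : Cube n → ℝ := (step A)^[s] f with hU
  set F : ℕ → Cube n → ℝ := fun k x => if lvl L K (f x) = k + 2 then f x else 0 with hF
  have hF0 : ∀ k x, 0 ≤ F k x := by
    intro k x
    rw [hF]
    dsimp only
    split_ifs
    · exact hf x
    · exact le_rfl
  have hU0 : ∀ x, 0 ≤ U x := fun x => it_nonneg s f hf x
  -- (1)
  have h1 : a * ∑ x ∈ A.filter (fun x => x ∈ G ∧ 2 ≤ lvl L K (f x)), f x ≤
      ∑ y ∈ A, ∑ k ∈ range K, nz A k y * (step A)^[s] (F k) y := by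
    have e1 : ∑ y ∈ A, ∑ k ∈ range K, nz A k y * (step A)^[s] (F k) y =
        ∑ x ∈ A, ∑ k ∈ range K, (step A)^[s] (nz A k) x * F k x := by
      rw [sum_comm, sum_comm (s := A)]
      refine sum_congr rfl fun k _ => ?_
      have h2 := step_iter_symm hA s (F k) (nz A k)
      calc ∑ y ∈ A, nz A k y * (step A)^[s] (F k) y
          = ∑ y ∈ A, (step A)^[s] (F k) y * nz A k y := sum_congr rfl fun y _ => mul_comm _ _
        _ = ∑ y ∈ A, F k y * (step A)^[s] (nz A k) y := h2
        _ = _ := sum_congr rfl fun y _ => mul_comm _ _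
    rw [e1, mul_sum, sum_filter]
    refine sum_le_sum fun x hx => ?_
    have e2 : ∑ k ∈ range K, (step A)^[s] (nz A k) x * F k x =
        if 2 ≤ lvl L K (f x) then (step A)^[s] (nz A (lvl L K (f x) - 2)) x * f x else 0 :=
      wn_one (lvl_le L K (f x)) (fun k => (step A)^[s] (nz A k) x) (f x)
    rw [e2]
    by_cases h2 : 2 ≤ lvl L K (f x)
    · rw [if_pos h2]
      by_cases hxG : x ∈ G
      · rw [if_pos ⟨hxG, h2⟩]
        refine mul_le_mul_of_nonneg_right ?_ (hf x)
        have hk : lvl L K (f x) - 2 < K := by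
          have := lvl_le L K (f x)
          omega
        exact (hG x hxG _ hk).trans (compare (nz A _) (nz_mono hA _) s x hx hA)
      · rw [if_neg (fun h => hxG h.1)]
        exact mul_nonneg (it_nonneg s _ (fun z => nz_nonneg A _ z) x) (hf x)
    · rw [if_neg h2, if_neg (fun h => h2 h.2)]
  -- (2)
  set w : Cube n → ℝ := fun y => if 1 ≤ lvl L K (U y) then wz A (lvl L K (U y) - 1) y else 0
    with hw
  set Dr : Cube n → Cube n → ℝ := fun y x => if lvl L K (U y) + 2 ≤ lvl L K (f x) then f x else 0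
    with hDr
  have hwz0 : ∀ k y, 0 ≤ wz A k y := by
    intro k y
    unfold wz
    have := nz_nonneg A k y
    have := nz_nonneg A (k - 1) y
    have := nz_nonneg A (k - 2) y
    linarith
  have hw0 : ∀ y, 0 ≤ w y := by
    intro y
    rw [hw]
    dsimp only
    split_ifs
    · exact hwz0 _ _
    · exact le_rfl
  have hDr0 : ∀ y x, 0 ≤ Dr y x := by
    intro y x
    rw [hDr]
    dsimp only
    split_ifs
    · exact hf x
    · exact le_rfl
  have h2 : ∀ y ∈ A, ∑ k ∈ range K, nz A k y * (step A)^[s] (F k) y ≤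
      w y * U y + (step A)^[s] (Dr y) y + U y / L := by
    intro y hy
    rw [← wn_sum hn A s K (fun k => nz A k y) F y]
    have hpt : ∀ x ∈ A, (fun x => ∑ k ∈ range K, nz A k y * F k x) x ≤
        (fun z => w y * f z + 1 * Dr y z + U y / L) x := by
      intro x _
      dsimp only
      have e2 : ∑ k ∈ range K, nz A k y * F k x =
          if 2 ≤ lvl L K (f x) then nz A (lvl L K (f x) - 2) y * f x else 0 :=
        wn_one (lvl_le L K (f x)) (fun k => nz A k y) (f x)
      rw [e2]
      have p1 : 0 ≤ w y * f x := mul_nonneg (hw0 y) (hf x)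
      have p2 : 0 ≤ Dr y x := hDr0 y x
      have p3 : 0 ≤ U y / L := div_nonneg (hU0 y) hL0.le
      have hnf : nz A (lvl L K (f x) - 2) y * f x ≤ f x := by
        have := mul_le_mul_of_nonneg_right (nz_le_one A (lvl L K (f x) - 2) y) (hf x)
        linarith
      by_cases c0 : 2 ≤ lvl L K (f x)
      · rw [if_pos c0]
        by_cases c1 : lvl L K (U y) + 2 ≤ lvl L K (f x)
        · have e3 : Dr y x = f x := by
            rw [hDr]
            dsimp only
            rw [if_pos c1]
          linarith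
        · by_cases c2 : lvl L K (f x) + 2 ≤ lvl L K (U y)
          · have := lvl_rise hL2 (hf x) c2
            linarith
          · have c3 : 1 ≤ lvl L K (U y) := by omega
            have e4 : w y = wz A (lvl L K (U y) - 1) y := by
              rw [hw]
              dsimp only
              rw [if_pos c3]
            have e5 : nz A (lvl L K (f x) - 2) y ≤ w y := by
              rw [e4]
              unfold wz
              have n1 := nz_nonneg A (lvl L K (U y) - 1) y
              have n2 := nz_nonneg A (lvl L K (U y) - 1 - 1) y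
              have n3 := nz_nonneg A (lvl L K (U y) - 1 - 2) y
              have c4 : lvl L K (f x) - 2 = lvl L K (U y) - 1 ∨
                  lvl L K (f x) - 2 = lvl L K (U y) - 1 - 1 ∨
                  lvl L K (f x) - 2 = lvl L K (U y) - 1 - 2 := by omega
              rcases c4 with c | c | c <;> rw [c] <;> linarith
            have := mul_le_mul_of_nonneg_right e5 (hf x)
            linarith
      · rw [if_neg c0]
        linarith
    have h3 := step_iter_mono hA s _ _ hpt y hy
    rw [it_lin hn A s (w y) 1 (U y / L) f (Dr y) y, one_mul] at h3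
    exact h3
  -- (3)
  have h3 : ∀ y ∈ A, w y * U y ≤
      16 * ∑ k ∈ range K, wz A k y * (rt (lev L k) (lev L (k + 1)) (U y)) ^ 2 := by
    intro y hy
    have hpos : ∀ k ∈ range K, 0 ≤ wz A k y * (rt (lev L k) (lev L (k + 1)) (U y)) ^ 2 :=
      fun k _ => mul_nonneg (hwz0 k y) (sq_nonneg _)
    by_cases c : 1 ≤ lvl L K (U y)
    · obtain ⟨j, hj⟩ : ∃ j, lvl L K (U y) = j + 1 := ⟨lvl L K (U y) - 1, by omega⟩
      have e4 : w y = wz A j y := by
        rw [hw]
        dsimp only
        rw [if_pos c, hj, Nat.add_sub_cancel]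
      have hjK : j < K := by
        have := lvl_le L K (U y)
        omega
      have e5 := lvl_rt hL2 (hfK y hy) hj
      have e6 := single_le_sum hpos (mem_range.2 hjK)
      have e7 := mul_le_mul_of_nonneg_left e5 (hwz0 j y)
      rw [e4]
      have e8 : wz A j y * U y = 16 * (wz A j y * (U y / 16)) := by ring
      rw [e8]
      linarith
    · have e4 : w y = 0 := by
        rw [hw]
        dsimp only
        rw [if_neg c]
      rw [e4, zero_mul]
      have := sum_nonneg hpos
      linarith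
  -- (4)
  have hUs : ∑ x ∈ A, U x = (A.card : ℝ) := by
    rw [hU, it_sum hn hA, hfs]
  have h4 := descentS hn hA L hL2 K U hU0 hUs
  have h5 := dropS hn hA hL K s f hf
  have h6 : (step A)^[s + 1] f = step A U := by
    rw [hU, Function.iterate_succ_apply']
  rw [h6]
  set T : ℝ := ∑ x ∈ A, ∑ k ∈ range K, wz A k x * (rt (lev L k) (lev L (k + 1)) (U x)) ^ 2 with hT
  have hn' : (0 : ℝ) < n := by exact_mod_cast hn
  have hlog : 0 < Real.log L := Real.log_pos (by linarith)
  have h7 : T ≤ 216 * n * (pot A L K U - pot A L K (step A U)) + 3 / L * (A.card : ℝ) := by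
    have e1 : 1 / (216 * (n : ℝ)) * (T - 3 / L * (A.card : ℝ)) ≤
        pot A L K U - pot A L K (step A U) := by linarith
    have e2 : T - 3 / L * (A.card : ℝ) =
        216 * n * (1 / (216 * (n : ℝ)) * (T - 3 / L * (A.card : ℝ))) := by
      field_simp
    have e3 := mul_le_mul_of_nonneg_left e1 (by positivity : (0 : ℝ) ≤ 216 * n)
    linarith
  have h8 : ∑ y ∈ A, (step A)^[s] (Dr y) y ≤ (pot A L K f - pot A L K U) / Real.log L := by
    rw [le_div_iff₀ hlog]
    have e1 : ∑ y ∈ A, (step A)^[s] (Dr y) y = ∑ y ∈ A, (step A)^[s]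
      (fun x => if lvl L K ((step A)^[s] f y) + 2 ≤ lvl L K (f x) then f x else 0) y := rfl
    rw [e1]
    linarith
  calc a * ∑ x ∈ A.filter (fun x => x ∈ G ∧ 2 ≤ lvl L K (f x)), f x
      ≤ ∑ y ∈ A, ∑ k ∈ range K, nz A k y * (step A)^[s] (F k) y := h1
    _ ≤ ∑ y ∈ A, (w y * U y + (step A)^[s] (Dr y) y + U y / L) := sum_le_sum h2
    _ = ∑ y ∈ A, w y * U y + ∑ y ∈ A, (step A)^[s] (Dr y) y + (∑ y ∈ A, U y) / L := by
        rw [sum_add_distrib, sum_add_distrib, sum_div]
    _ ≤ 16 * T + (pot A L K f - pot A L K U) / Real.log L + (A.card : ℝ) / L := by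
        rw [hUs]
        have e1 : ∑ y ∈ A, w y * U y ≤ 16 * T := by
          rw [hT, mul_sum]
          exact sum_le_sum h3
        linarith
    _ ≤ 3456 * n * (pot A L K U - pot A L K (step A U)) +
        (pot A L K f - pot A L K U) / Real.log L + 49 / L * (A.card : ℝ) := by
        have e1 : 49 / L * (A.card : ℝ) = 16 * (3 / L * (A.card : ℝ)) + (A.card : ℝ) / L := by
          ring
        rw [e1]
        linarith

end Pool.Agent.Lib.MP_52661b_pr
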